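import Pool.Agent.N218.P21.U

/-!
# P21: the divisibility for two norms divisible by seven
-/

set_option autoImplicit false

namespace Pool.Agent.N218.P21

open Finset
open Pool.Agent.N969.P15 (V3 tw Ev Qc Qe)
open Pool.Agent.N877.P21
open Pool.Agent.Z700 (hh fac)
open Pool.Agent.N218.P15 (pr Dat dat_of sum_div_filter sum_symm' card_cop quo res4a val_mul pr_dvd
  quo_eq)
open Pool.Agent.N871.P15 (odd_dvd_cancel mod_div card_mul)

theorem sum_four7 (s : Finset ℤ) (g : ℤ → ℤ) (r : ℤ)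
    (hg : ∀ b ∈ s, g b ≠ 0 → (b % 3 = 1 ∨ b % 3 = 2) ∧ (b % 7 = r ∨ b % 7 = 7 - r)) :
    ∑ b ∈ s, g b = ∑ b ∈ s.filter (fun b => b % 7 = r ∧ b % 3 = 1), g b +
      ∑ b ∈ s.filter (fun b => b % 7 = 7 - r ∧ b % 3 = 1), g b +
      ∑ b ∈ s.filter (fun b => b % 7 = r ∧ b % 3 = 2), g b +
      ∑ b ∈ s.filter (fun b => b % 7 = 7 - r ∧ b % 3 = 2), g b := by
  rw [Finset.sum_filter, Finset.sum_filter, Finset.sum_filter, Finset.sum_filter,
    ← Finset.sum_add_distrib, ← Finset.sum_add_distrib, ← Finset.sum_add_distrib]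
  refine Finset.sum_congr rfl fun b hb => ?_
  by_cases h0 : g b = 0
  · simp [h0]
  · obtain ⟨h1, h2⟩ := hg b hb h0
    rcases h1 with h1 | h1 <;> rcases h2 with h2 | h2
    · rw [if_pos ⟨h2, h1⟩, if_neg (by omega), if_neg (by omega), if_neg (by omega)]; ring
    · rw [if_neg (by omega), if_pos ⟨h2, h1⟩, if_neg (by omega), if_neg (by omega)]; ring
    · rw [if_neg (by omega), if_neg (by omega), if_pos ⟨h2, h1⟩, if_neg (by omega)]; ring
    · rw [if_neg (by omega), if_neg (by omega), if_neg (by omega), if_pos ⟨h2, h1⟩]; ring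

theorem loc7_zero_7 {n1 D : ℕ} (h : ¬ 7 ∣ D) : loc7 n1 D = 0 := by
  unfold loc7
  rw [Nat.factorization_eq_zero_of_not_dvd h]
  simp

theorem loc7_zero_3 {n1 D : ℕ} (h : ¬ 3 ∣ D) : loc7 n1 D = 0 := by
  unfold loc7 lrest
  rw [Nat.factorization_eq_zero_of_not_dvd h]
  simp

theorem loc_zero_3 {n1 D : ℕ} (h : ¬ 3 ∣ D) : loc n1 D = 0 := by
  unfold loc
  rw [Nat.factorization_eq_zero_of_not_dvd h]
  simp

/-- squares modulo seven -/
theorem sq7 (b : ℤ) : b ^ 2 % 7 = 0 ∨ b ^ 2 % 7 = 1 ∨ b ^ 2 % 7 = 2 ∨ b ^ 2 % 7 = 4 := by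
  have h9 : b % 7 = 0 ∨ b % 7 = 1 ∨ b % 7 = 2 ∨ b % 7 = 3 ∨ b % 7 = 4 ∨ b % 7 = 5 ∨ b % 7 = 6 := by
    omega
  rcases h9 with h9 | h9 | h9 | h9 | h9 | h9 | h9 <;>
  · rw [sq, Int.mul_emod, h9]; norm_num

/-- the quotient of a square by a non square modulo seven -/
theorem res7a {x y z : ℕ} (h : x % 7 * (y % 7) % 7 = z % 7)
    (hz : z % 7 = 1 ∨ z % 7 = 2 ∨ z % 7 = 4) (hx : x % 7 = 3 ∨ x % 7 = 5 ∨ x % 7 = 6) :
    y % 7 = 3 ∨ y % 7 = 5 ∨ y % 7 = 6 := by
  rcases hx with hx | hx | hx <;> rw [hx] at h <;> omega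

/-- the divisibility for `7 d`, `7 (m / d)` -/
theorem core77 (hPC : S_PC) (hPC3 : S_PC3') (hR : S_REL55) (hC : S_CP7) {P : Finset ℕ}
    (hP : PQ P) {m : ℕ} (hm0 : m ≠ 0) (hm3 : m % 3 = 1) (hm7 : ¬ 7 ∣ m)
    (hnsq : ∀ b : ℤ, b ^ 2 ≠ m) (hv : ∀ l ∈ P, m.factorization l = 1)
    (hd : ∀ S ⊆ P, Squarefree (7 * pr S) ∧ pr S ∣ m) :
    (2 : ℤ) ^ (P.card + 3) ∣ ∑ S ∈ P.powerset.filter (fun S => pr S % 4 = 1),
      (cp0 (7 * pr S : ℕ) (49 * m / (7 * pr S) : ℕ) : ℤ) := by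
  have t7 : T21 7 := Or.inr (Or.inr (Or.inl rfl))
  have h3m : ¬ 3 ∣ m := by omega
  have hsq : ∀ b : ℤ, (7 * b) ^ 2 ≠ ((49 * m : ℕ) : ℤ) := by
    intro b hb
    push_cast at hb
    have : b ^ 2 = (m : ℤ) := by linarith
    exact hnsq b this
  have hN0 : 49 * m ≠ 0 := by omega
  have key := totF hPC hPC3 (P := P) (N := 49 * m) (t := 7) t7 hN0 hsq
    (fun h => by rcases h with h | h <;> omega) (fun h => (hP 3 h).2.2.1 rfl)
    (fun p hp => (hP p hp).1)
    (fun S hS => ⟨(hd S hS).1, (mul_dvd_mul_left 7 (hd S hS).2).trans ⟨7, by ring⟩⟩)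
  rw [show rt 7 = 1 from rfl] at key
  rw [key]
  have h0 : gS P 7 (49 * m) 0 = 0 := by
    unfold gS
    rw [DD_zero]
    exact Finset.sum_eq_zero fun S _ => loc_zero_3 (by omega)
  rw [h0, add_zero]
  set B : ℕ := BB (49 * m) with hB
  have hB1 : m < B ^ 2 := by
    have := BB_lt (49 * m)
    rw [← hB] at this
    omega
  have hpos : ∀ b ∈ Ioo (-(B : ℤ)) B, 0 < (m : ℤ) - b ^ 2 := by
    intro b hb
    have h1 := DD_pos hsq hb
    push_cast at h1
    have e : 49 * (m : ℤ) - (7 * b) ^ 2 = 49 * ((m : ℤ) - b ^ 2) := by ring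
    rw [e] at h1
    omega
  have hDD : ∀ b : ℤ, DD (49 * m) b = 49 * ((m : ℤ) - b ^ 2).toNat := by
    intro b
    unfold DD
    have e : ((49 * m : ℕ) : ℤ) - (7 * b) ^ 2 = 49 * ((m : ℤ) - b ^ 2) := by push_cast; ring
    rw [e]
    omega
  set K := P.powerset.filter (fun S => pr S % 4 = 3 ∧
    (pr S % 7 = 3 ∨ pr S % 7 = 5 ∨ pr S % 7 = 6)) with hK
  -- the local facts
  have hloc : ∀ b ∈ Ioo (-(B : ℤ)) B,
      ((2 : ℤ) ^ P.card ∣ gS P 7 (49 * m) b -
        2 * ∑ S ∈ K, loc7 (pr S) ((m : ℤ) - b ^ 2).toNat) ∧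
      (2 : ℤ) ^ P.card ∣ 4 * ∑ S ∈ K, loc7 (pr S) ((m : ℤ) - b ^ 2).toNat := by
    intro b hb'
    have hp := hpos b hb'
    unfold gS
    rw [hDD]
    set E := ((m : ℤ) - b ^ 2).toNat with hE
    have hEE : (E : ℤ) = m - b ^ 2 := Int.toNat_of_nonneg hp.le
    have hE0 : 0 < E := by omega
    have hk := key77 hP hE0 (fun l hl h => Pool.Agent.N218.P15.val1 (hP l hl).1 hm0 (hv l hl)
      hE0.ne' hEE h)
    refine ⟨?_, hk.2⟩
    have h6 := hk.1
    rw [pow_succ, mul_comm ((2 : ℤ) ^ _) 2] at h6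
    refine (mul_dvd_mul_iff_left (by norm_num : (2 : ℤ) ≠ 0)).1 (h6.trans (dvd_of_eq ?_))
    rw [show rt 7 = 1 from rfl]
    ring
  -- reduction to the sum of the other local densities
  have hred : (2 : ℤ) ^ P.card ∣
      2 * ∑ b ∈ Ioo (0 : ℤ) B, ∑ S ∈ K, loc7 (pr S) ((m : ℤ) - b ^ 2).toNat := by
    have e0 : 2 * ∑ b ∈ Ioo (0 : ℤ) B, ∑ S ∈ K, loc7 (pr S) ((m : ℤ) - b ^ 2).toNat =
        ∑ b ∈ Ioo (-(B : ℤ)) B, ∑ S ∈ K, loc7 (pr S) ((m : ℤ) - b ^ 2).toNat := by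
      rw [sum_symm' (BB_pos _) (fun b => ∑ S ∈ K, loc7 (pr S) ((m : ℤ) - b ^ 2).toNat)]
      · have : ∑ S ∈ K, loc7 (pr S) ((m : ℤ) - 0 ^ 2).toNat = 0 := by
          refine Finset.sum_eq_zero fun S _ => loc7_zero_3 ?_
          omega
        rw [this, add_zero]
      · intro b
        have : (-b) ^ 2 = b ^ 2 := by ring
        rw [this]
    rw [e0]
    by_cases h7 : m % 7 = 1 ∨ m % 7 = 2 ∨ m % 7 = 4
    swap
    · have hz : ∀ b ∈ Ioo (-(B : ℤ)) B, ∑ S ∈ K, loc7 (pr S) ((m : ℤ) - b ^ 2).toNat = 0 := by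
        intro b hb'
        have hp := hpos b hb'
        refine Finset.sum_eq_zero fun S _ => loc7_zero_7 ?_
        intro h
        have h8 : (7 : ℤ) ∣ (m : ℤ) - b ^ 2 := by
          rw [← Int.toNat_of_nonneg hp.le]
          exact_mod_cast h
        have := sq7 b
        omega
      rw [Finset.sum_eq_zero hz]
      exact dvd_zero _
    obtain ⟨r, hr0, hr7, hrm⟩ : ∃ r : ℤ, 0 < r ∧ 2 * r < 7 ∧ (7 : ℤ) ∣ r ^ 2 - (m : ℤ) := by
      rcases h7 with h7 | h7 | h7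
      · exact ⟨1, by norm_num, by norm_num, by omega⟩
      · exact ⟨3, by norm_num, by norm_num, by omega⟩
      · exact ⟨2, by norm_num, by norm_num, by omega⟩
    -- the sums over the classes
    have hw : ∀ S ∈ K, ∀ r7 r3 : ℤ, (r7 = r ∨ r7 = 7 - r) → (r3 = 1 ∨ r3 = 2) →
        576 * ∑ b ∈ (Ioo (-(B : ℤ)) B).filter (fun b => b % 7 = r7 ∧ b % 3 = r3),
          loc7 (pr S) ((m : ℤ) - b ^ 2).toNat =
          3 * rr (pr S : ℕ) * rr (m / pr S : ℕ) + cc (pr S : ℕ) * cc (m / pr S : ℕ) := by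
      intro S hS r7 r3 hr7' hr3
      rw [hK, Finset.mem_filter, Finset.mem_powerset] at hS
      obtain ⟨hSP, hd4, hd7⟩ := hS
      have hdn := (hd S hSP).2
      have hsqf : Squarefree (pr S) := (hd S hSP).1.squarefree_of_dvd (Dvd.intro_left _ rfl)
      have e1 : pr S * (m / pr S) = m := Nat.mul_div_cancel' hdn
      have hmod : pr S % 7 * (m / pr S % 7) % 7 = m % 7 := by
        rw [← Nat.mul_mod, e1]
      have hd7' : Sp7 (m / pr S) := res7a hmod h7 hd7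
      have h3d : ¬ 3 ∣ pr S := fun h => h3m (h.trans hdn)
      have h3d' : ¬ 3 ∣ m / pr S := fun h => h3m (h.trans (Nat.div_dvd_of_dvd hdn))
      have e2 : ((pr S : ℕ) : ℤ) * ((m / pr S : ℕ) : ℤ) = m := by exact_mod_cast e1
      have hr7m : (7 : ℤ) ∣ r7 ^ 2 - ((pr S : ℕ) : ℤ) * ((m / pr S : ℕ) : ℤ) := by
        rw [e2]
        rcases hr7' with rfl | rfl
        · exact hrm
        · have : (7 - r) ^ 2 - (m : ℤ) = (r ^ 2 - m) + 7 * (7 - 2 * r) := by ring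
          rw [this]
          exact dvd_add hrm (Dvd.intro _ rfl)
      have hr3m : (3 : ℤ) ∣ r3 ^ 2 - ((pr S : ℕ) : ℤ) * ((m / pr S : ℕ) : ℤ) := by
        rw [e2]
        rcases hr3 with rfl | rfl <;> omega
      rw [← hR (pr S) (m / pr S) hd7 hd7' h3d h3d' r7 r3 (by omega) (by omega) hr7m (by omega)
        (by omega) hr3m B (by rw [e2]; exact_mod_cast hB1)
        (by have := BB_pos (49 * m); rw [← hB] at this; exact_mod_cast this),
        Finset.mul_sum, Finset.mul_sum]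
      refine Finset.sum_congr rfl fun b hb' => ?_
      rw [Finset.mem_filter] at hb'
      have hp := hpos b hb'.1
      have hEE := Int.toNat_of_nonneg hp.le
      have h7E : 7 ∣ ((m : ℤ) - b ^ 2).toNat := by
        have h8 : (7 : ℤ) ∣ (m : ℤ) - b ^ 2 := by
          have h9 : (7 : ℤ) ∣ b - r7 := by omega
          have h10 : (7 : ℤ) ∣ r7 ^ 2 - m := by rw [← e2]; exact hr7m
          have h11 : (m : ℤ) - b ^ 2 = -(r7 ^ 2 - m) - (b - r7) * (b + r7) := by ring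
          rw [h11]
          exact dvd_sub ((dvd_neg).2 h10) (Dvd.dvd.mul_right h9 _)
        rw [← hEE] at h8
        exact_mod_cast h8
      rw [hC (pr S) (m / pr S) b ((m : ℤ) - b ^ 2).toNat hsqf hd4 hd7 hd7' h3d (by omega) h7E
        (by rw [e2]; exact hEE)]
      ring
    have hv' : ∀ S ∈ K, ∑ b ∈ Ioo (-(B : ℤ)) B, loc7 (pr S) ((m : ℤ) - b ^ 2).toNat =
        4 * ∑ b ∈ (Ioo (-(B : ℤ)) B).filter (fun b => b % 7 = r ∧ b % 3 = 1),
          loc7 (pr S) ((m : ℤ) - b ^ 2).toNat := by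
      intro S hS
      rw [sum_four7 _ _ r]
      · have w1 := hw S hS r 1 (Or.inl rfl) (Or.inl rfl)
        have w2 := hw S hS (7 - r) 1 (Or.inr rfl) (Or.inl rfl)
        have w3 := hw S hS r 2 (Or.inl rfl) (Or.inr rfl)
        have w4 := hw S hS (7 - r) 2 (Or.inr rfl) (Or.inr rfl)
        linarith
      · intro b hb' hne
        have hp := hpos b hb'
        have hEE := Int.toNat_of_nonneg hp.le
        constructor
        · by_contra hcon
          have h6 : b % 3 = 0 := by omega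
          apply hne
          apply loc7_zero_3
          intro h
          have h7 : (3 : ℤ) ∣ (m : ℤ) - b ^ 2 := by
            rw [← hEE]
            exact_mod_cast h
          have : b ^ 2 % 3 = 0 := by rw [sq, Int.mul_emod, h6]; norm_num
          omega
        · by_contra hcon
          apply hne
          apply loc7_zero_7
          intro h
          have h8 : (7 : ℤ) ∣ (m : ℤ) - b ^ 2 := by
            rw [← hEE]
            exact_mod_cast h
          have h10 : (7 : ℤ) ∣ (b - r) * (b + r) := by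
            have : (b - r) * (b + r) = -(((m : ℤ) - b ^ 2) + (r ^ 2 - m)) := by ring
            rw [this]
            exact (dvd_neg).2 (dvd_add h8 hrm)
          rcases (Int.Prime.dvd_mul' (p := 7) (by norm_num) h10) with h11 | h11
          · apply hcon; left; push_cast at h11; omega
          · apply hcon; right; push_cast at h11; omega
    rw [Finset.sum_comm, Finset.sum_congr rfl hv', ← Finset.mul_sum, Finset.sum_comm,
      Finset.mul_sum]
    refine Finset.dvd_sum fun b hb' => ?_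
    rw [Finset.mem_filter] at hb'
    exact (hloc b hb'.1).2
  have hfin : (2 : ℤ) ^ P.card ∣ ∑ b ∈ Ioo (0 : ℤ) B, gS P 7 (49 * m) b := by
    have e5 : ∑ b ∈ Ioo (0 : ℤ) B, gS P 7 (49 * m) b =
        ∑ b ∈ Ioo (0 : ℤ) B, (gS P 7 (49 * m) b -
          2 * ∑ S ∈ K, loc7 (pr S) ((m : ℤ) - b ^ 2).toNat) +
        2 * ∑ b ∈ Ioo (0 : ℤ) B, ∑ S ∈ K, loc7 (pr S) ((m : ℤ) - b ^ 2).toNat := by
      rw [Finset.mul_sum, ← Finset.sum_add_distrib]
      refine Finset.sum_congr rfl fun b _ => ?_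
      ring
    rw [e5]
    refine dvd_add (Finset.dvd_sum fun b hb' => ?_) hred
    refine (hloc b ?_).1
    rw [Finset.mem_Ioo] at hb' ⊢
    omega
  obtain ⟨c', hc'⟩ := hfin
  rw [hc', pow_add]
  exact ⟨3 * c', by ring⟩

end Pool.Agent.N218.P21
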