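import Pool.Agent.N218.P21.Par

/-!
# P21: the parity of the Gross sums, conclusions
-/

set_option autoImplicit false

namespace Pool.Agent.N218.P21

open Finset
open Pool.Agent.N969.P15 (V3 tw Ev Qc Qe)
open Pool.Agent.N877.P21

theorem comb {n E : ℕ} {q : Prop} {g : ℤ} (hg : rr n = 2 ^ E * g) (hq : Odd g ↔ q)
    (h : ∃ g' z : ℤ, rr n = 2 ^ E * g' ∧ cc n = rr n + 2 ^ (E + 1) * z) :
    ∃ y : ℤ, cc n = 2 ^ E * y ∧ (Odd y ↔ q) := by
  obtain ⟨g', z, -, hz⟩ := h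
  refine ⟨g + 2 * z, ?_, ?_⟩
  · rw [hz, hg, pow_succ]
    ring
  · rw [← hq, Int.odd_add]
    exact ⟨fun h => h.2 (even_two_mul z), fun h => ⟨fun _ => even_two_mul z, fun _ => h⟩⟩

theorem mk_odd {t x : ℕ} (ht : T21 t) (hs : Squarefree (t * x)) (h4 : (t * x) % 4 = 3)
    (h3 : ¬ 3 ∣ x) (h7 : ¬ 7 ∣ x) : XT t 1 x x := by
  refine ⟨by rw [one_mul], hs.squarefree_of_dvd (Dvd.intro_left _ rfl), ?_, h3, h7,
    Or.inl ⟨rfl, ?_⟩⟩
  · intro h
    obtain ⟨y, rfl⟩ := h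
    have : t * (2 * y) % 2 = 0 := by
      rw [show t * (2 * y) = 2 * (t * y) by ring]; omega
    omega
  · rcases ht with rfl | rfl | rfl | rfl
    · rw [show rt 1 = 3 from rfl]; omega
    · rw [show rt 3 = 1 from rfl]; omega
    · rw [show rt 7 = 1 from rfl]; omega
    · rw [show rt 21 = 3 from rfl]; omega

theorem mk_ev {t x : ℕ} (ht : T21 t) (hev : Ev (t * x))
    (h3 : ¬ 3 ∣ x) (h7 : ¬ 7 ∣ x) : ∃ c A, XT t c A x := by
  obtain ⟨m, hm, hs, h4⟩ := hev
  obtain ⟨a, rfl⟩ : 4 ∣ x := by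
    rcases ht with rfl | rfl | rfl | rfl <;> omega
  have hma : m = t * a := by
    have : 4 * m = 4 * (t * a) := by rw [← hm]; ring
    omega
  subst hma
  have hsa : Squarefree a := hs.squarefree_of_dvd (Dvd.intro_left _ rfl)
  by_cases h2 : 2 ∣ a
  · obtain ⟨A, rfl⟩ := h2
    have h2A : ¬ 2 ∣ A := by
      rintro ⟨B, rfl⟩
      have := Nat.isUnit_iff.1 (hsa 2 ⟨B, by ring⟩)
      omega
    exact ⟨8, A, by ring, hsa.squarefree_of_dvd (Dvd.intro_left _ rfl), h2A, h3, h7,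
      Or.inr (Or.inr rfl)⟩
  · refine ⟨4, a, rfl, hsa, h2, h3, h7, Or.inr (Or.inl ⟨rfl, ?_⟩)⟩
    rcases ht with rfl | rfl | rfl | rfl
    · rw [show rt 1 = 3 from rfl]; omega
    · rw [show rt 3 = 1 from rfl]; omega
    · rw [show rt 7 = 1 from rfl]; omega
    · rw [show rt 21 = 3 from rfl]; omega

/-- removing the primes dividing `21` -/
theorem nd_sq {t x l : ℕ} (hl : l.Prime) (hs : Squarefree (l * x * t)) : ¬ l ∣ x := by
  rintro ⟨y, rfl⟩
  have := Nat.isUnit_iff.1 (hs l ⟨y * t, by ring⟩)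
  exact hl.one_lt.ne' this

/-- no squares of odd primes divide `n` -/
theorem Ev.nsq {n l : ℕ} (h : Ev n) (hl : l.Prime) (h2 : l ≠ 2) : ¬ l * l ∣ n := by
  obtain ⟨m, rfl, hs, -⟩ := h
  intro h'
  have h1 : Nat.Coprime (l * l) 4 := by
    have h3 : Nat.Coprime l 2 := (Nat.coprime_primes hl Nat.prime_two).2 h2
    have h4 : Nat.Coprime l 4 := (show (4 : ℕ) = 2 ^ 2 by norm_num) ▸ h3.pow_right 2
    exact Nat.Coprime.mul_left h4 h4
  have h3 := Nat.isUnit_iff.1 (hs l (h1.dvd_of_dvd_mul_left h'))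
  exact hl.one_lt.ne' h3

theorem p7 : Nat.Prime 7 := by norm_num

section

variable (hPC : S_PC) (hPC3 : S_PC3') (hR55 : S_REL55) (hC : S_CP7) (hR : S_R) (hRE : S_RE)
    (hR3 : S_R3) (hR3E : S_R3E)

include hPC hPC3 hR55 hC hR hRE hR3 hR3E

/-- **PAR** -/
theorem t_PAR : S_PAR := by
  intro n hn
  have key : ∃ g z : ℤ, rr n = 2 ^ (n.primeFactors.card + 1) * g ∧
      cc n = rr n + 2 ^ (n.primeFactors.card + 1 + 1) * z := by
    rcases hn with ⟨hs, h4, h3, h7⟩ | ⟨hs, h4, ⟨x, rfl⟩, h3⟩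
    · have ht : T21 1 := Or.inl rfl
      have h7' : ¬ 7 ∣ n := by unfold Sp7 at h7; omega
      have hX := mk_odd (t := 1) (x := n) ht (by rwa [one_mul]) (by rwa [one_mul]) (by omega) h7'
      have h := main hPC hPC3 hR55 hC hR hRE hR3 hR3E ht hX (Or.inr (by rwa [one_mul]))
      have hc := card_t ht hX.pos.ne' hX.h3 hX.h7
      unfold GG at h
      rw [← hc, if_pos (Or.inl rfl), one_mul] at h
      exact h
    · have ht : T21 7 := Or.inr (Or.inr (Or.inl rfl))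
      have h7' : ¬ 7 ∣ x := nd_sq (t := 1) p7 (by rwa [mul_one])
      have hX := mk_odd ht hs h4 (by omega) h7'
      have h := main hPC hPC3 hR55 hC hR hRE hR3 hR3E ht hX (Or.inl dvd_rfl)
      have hc := card_t ht hX.pos.ne' hX.h3 hX.h7
      unfold GG at h
      rw [← hc, if_pos (Or.inr rfl)] at h
      exact h
  have h1 : Squarefree n ∧ n % 4 = 3 ∧ n % 3 = 1 := by
    rcases hn with h | h
    · exact ⟨h.1, h.2.1, h.2.2.1⟩
    · exact ⟨h.1, h.2.1, h.2.2.2⟩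
  obtain ⟨g, hg, hq⟩ := hR n h1.1 h1.2.1 h1.2.2
  exact comb hg hq key

/-- **PARE** -/
theorem t_PARE : S_PARE := by
  intro n hn
  have key : ∃ g z : ℤ, rr n = 2 ^ (n.primeFactors.card + 1) * g ∧
      cc n = rr n + 2 ^ (n.primeFactors.card + 1 + 1) * z := by
    rcases hn with ⟨hev, h3, h7⟩ | ⟨hev, ⟨x, rfl⟩, h3⟩
    · have ht : T21 1 := Or.inl rfl
      have h7' : ¬ 7 ∣ n := by unfold Sp7 at h7; omega
      obtain ⟨c, A, hX⟩ := mk_ev (t := 1) (x := n) ht (by rwa [one_mul]) (by omega) h7'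
      have h := main hPC hPC3 hR55 hC hR hRE hR3 hR3E ht hX (Or.inr (by rwa [one_mul]))
      have hc := card_t ht hX.pos.ne' hX.h3 hX.h7
      unfold GG at h
      rw [← hc, if_pos (Or.inl rfl), one_mul] at h
      exact h
    · have ht : T21 7 := Or.inr (Or.inr (Or.inl rfl))
      have h7' : ¬ 7 ∣ x := fun h => Ev.nsq hev p7 (by norm_num) (mul_dvd_mul_left 7 h)
      obtain ⟨c, A, hX⟩ := mk_ev ht hev (by omega) h7'
      have h := main hPC hPC3 hR55 hC hR hRE hR3 hR3E ht hX (Or.inl dvd_rfl)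
      have hc := card_t ht hX.pos.ne' hX.h3 hX.h7
      unfold GG at h
      rw [← hc, if_pos (Or.inr rfl)] at h
      exact h
  have h1 : Ev n ∧ n % 3 = 1 ∧ 4 < n := by
    have h4 : ∀ n, Ev n → n % 3 = 1 → n ≠ 4 → 4 < n := by
      rintro n ⟨m, rfl, hs, -⟩ _ h
      have := hs.ne_zero
      omega
    rcases hn with h | h
    · refine ⟨h.1, h.2.1, h4 n h.1 h.2.1 ?_⟩
      rintro rfl
      have := h.2.2
      unfold Sp7 at this
      omega
    · refine ⟨h.1, h.2.2, h4 n h.1 h.2.2 ?_⟩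
      rintro rfl
      have := h.2.1
      omega
  obtain ⟨g, hg, hq⟩ := hRE n h1.1 h1.2.1 h1.2.2
  exact comb hg hq key

/-- **PARA3** -/
theorem t_PARA3 : S_PARA3 := by
  intro n hn
  have key : ∃ g z : ℤ, rr n = 2 ^ n.primeFactors.card * g ∧
      cc n = rr n + 2 ^ (n.primeFactors.card + 1) * z := by
    rcases hn with ⟨hs, h4, h7, h3⟩ | ⟨hs, h4, h7, ⟨x, rfl⟩⟩
    · obtain ⟨x, rfl⟩ : 21 ∣ n := by omega
      have ht : T21 21 := Or.inr (Or.inr (Or.inr rfl))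
      have h7' : ¬ 7 ∣ x := nd_sq (t := 3) p7 (by
        rw [show 7 * x * 3 = 21 * x by ring]; exact hs)
      have h3' : ¬ 3 ∣ x := nd_sq (t := 7) Nat.prime_three (by
        rw [show 3 * x * 7 = 21 * x by ring]; exact hs)
      have hX := mk_odd ht hs h4 h3' h7'
      have h := main hPC hPC3 hR55 hC hR hRE hR3 hR3E ht hX (Or.inl (by norm_num))
      have hc := card_t ht hX.pos.ne' hX.h3 hX.h7
      unfold GG at h
      rw [← hc, if_neg (by norm_num), add_zero] at h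
      exact h
    · have ht : T21 3 := Or.inr (Or.inl rfl)
      have h7' : ¬ 7 ∣ x := by unfold Sp7 at h7; omega
      have h3' : ¬ 3 ∣ x := nd_sq (t := 1) Nat.prime_three (by rwa [mul_one])
      have hX := mk_odd ht hs h4 h3' h7'
      have h := main hPC hPC3 hR55 hC hR hRE hR3 hR3E ht hX (Or.inr h7)
      have hc := card_t ht hX.pos.ne' hX.h3 hX.h7
      unfold GG at h
      rw [← hc, if_neg (by norm_num), add_zero] at h
      exact h
  have h1 : Squarefree n ∧ n % 4 = 3 ∧ 3 ∣ n := by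
    rcases hn with h | h
    · exact ⟨h.1, h.2.1, h.2.2.2⟩
    · exact ⟨h.1, h.2.1, h.2.2.2⟩
  obtain ⟨g, hg, hq⟩ := hR3 n h1.1 h1.2.1 h1.2.2
  exact comb hg hq key

/-- **PARA3E** -/
theorem t_PARA3E : S_PARA3E := by
  intro n hn
  have key : ∃ g z : ℤ, rr n = 2 ^ n.primeFactors.card * g ∧
      cc n = rr n + 2 ^ (n.primeFactors.card + 1) * z := by
    rcases hn with ⟨hev, h7, h3⟩ | ⟨hev, h7, ⟨x, rfl⟩⟩
    · obtain ⟨x, rfl⟩ : 21 ∣ n := by omega
      have ht : T21 21 := Or.inr (Or.inr (Or.inr rfl))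
      have h7' : ¬ 7 ∣ x := fun h => Ev.nsq hev p7 (by norm_num) (by
        obtain ⟨y, rfl⟩ := h; exact ⟨3 * y, by ring⟩)
      have h3' : ¬ 3 ∣ x := fun h => Ev.nsq hev Nat.prime_three (by norm_num) (by
        obtain ⟨y, rfl⟩ := h; exact ⟨7 * y, by ring⟩)
      obtain ⟨c, A, hX⟩ := mk_ev ht hev h3' h7'
      have h := main hPC hPC3 hR55 hC hR hRE hR3 hR3E ht hX (Or.inl (by norm_num))
      have hc := card_t ht hX.pos.ne' hX.h3 hX.h7
      unfold GG at h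
      rw [← hc, if_neg (by norm_num), add_zero] at h
      exact h
    · have ht : T21 3 := Or.inr (Or.inl rfl)
      have h7' : ¬ 7 ∣ x := by unfold Sp7 at h7; omega
      have h3' : ¬ 3 ∣ x := fun h => Ev.nsq hev Nat.prime_three (by norm_num)
        (mul_dvd_mul_left 3 h)
      obtain ⟨c, A, hX⟩ := mk_ev ht hev h3' h7'
      have h := main hPC hPC3 hR55 hC hR hRE hR3 hR3E ht hX (Or.inr h7)
      have hc := card_t ht hX.pos.ne' hX.h3 hX.h7
      unfold GG at h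
      rw [← hc, if_neg (by norm_num), add_zero] at h
      exact h
  have h1 : Ev n ∧ 3 ∣ n := by
    rcases hn with h | h
    · exact ⟨h.1, h.2.2⟩
    · exact ⟨h.1, h.2.2⟩
  obtain ⟨g, hg, hq⟩ := hR3E n h1.1 h1.2
  exact comb hg hq key

end

end Pool.Agent.N218.P21
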