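import Pool.Agent.N218.P15.FiveLoc
import Pool.Agent.N877.P21.Defs

/-!
# P21: sums of local densities over the factorizations for a fixed inner product
-/

set_option autoImplicit false

namespace Pool.Agent.N218.P21

open Finset
open Pool.Agent.N969.P15 (tw)
open Pool.Agent.N877.P21 (loc loc7 lrest)
open Pool.Agent.Z700 (hh fac)
open Pool.Agent.N218.P15 (Sgn FF GS abs1 x4 x8 pr x4_sgn x8_sgn x4_mul x8_mul jac_pr jac_sgn ee
  tw_small adj)

/-! ### factors `49` -/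

theorem fact49 (D' l : ℕ) (hD' : 0 < D') (hl : l.Prime) (h3 : l ≠ 7) :
    (49 * D').factorization l = D'.factorization l := by
  rw [Nat.factorization_mul (by norm_num) hD'.ne']
  have h9 : (49 : ℕ).factorization l = 0 := by
    apply Nat.factorization_eq_zero_of_not_dvd
    intro h
    have h1 : l ∣ 7 ^ 2 := by norm_num; exact h
    have h2 := hl.dvd_of_dvd_pow h1
    rw [Nat.prime_dvd_prime_iff_eq hl (by norm_num)] at h2
    exact h3 h2
  simp [h9]

theorem fact49_7 (D' : ℕ) (hD' : 0 < D') :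
    (49 * D').factorization 7 = 2 + D'.factorization 7 := by
  rw [Nat.factorization_mul (by norm_num) hD'.ne']
  have h9 : (49 : ℕ).factorization 7 = 2 := by
    have : (49 : ℕ) = 7 ^ 2 := by norm_num
    rw [this, Nat.Prime.factorization_pow (by norm_num)]
    simp
  simp [h9]

theorem jac49 (x : ℤ) (l : ℕ) (hl : l.Prime) (h3 : l ≠ 7) :
    jacobiSym (49 * x) l = jacobiSym x l := by
  rw [jacobiSym.mul_left]
  have h1 : jacobiSym (49 : ℤ) l = 1 := by
    have : (49 : ℤ) = 7 ^ 2 := by norm_num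
    rw [this]
    apply jacobiSym.sq_one'
    rw [Int.gcd_comm]
    have h2 : Nat.Coprime l 7 := (Nat.coprime_primes hl (by norm_num)).2 h3
    exact_mod_cast h2
  rw [h1, one_mul]

theorem fac49 (n1 D' l : ℕ) (hD' : 0 < D') (hl : l.Prime) (h3 : l ≠ 7) :
    fac n1 (49 * D') l = fac n1 D' l := by
  unfold fac hh
  rw [fact49 D' l hD' hl h3]
  have h1 : 49 * D' / l ^ D'.factorization l = 49 * (D' / l ^ D'.factorization l) :=
    Nat.mul_div_assoc _ (Nat.ordProj_dvd D' l)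
  rw [h1]
  have h2 : (-((49 * (D' / l ^ D'.factorization l) : ℕ) : ℤ)) =
      49 * (-((D' / l ^ D'.factorization l : ℕ) : ℤ)) := by
    push_cast
    ring
  have h4 : (-((n1 / l * (49 * (D' / l ^ D'.factorization l)) : ℕ) : ℤ)) =
      49 * (-((n1 / l * (D' / l ^ D'.factorization l) : ℕ) : ℤ)) := by
    push_cast
    ring
  rw [h2, h4, jac49 _ l hl h3, jac49 _ l hl h3]

theorem pf49 (D' : ℕ) (hD' : 0 < D') :
    (((49 * D').primeFactors.erase 2).erase 3).erase 7 =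
      ((D'.primeFactors.erase 2).erase 3).erase 7 := by
  rw [Nat.primeFactors_mul (by norm_num) hD'.ne']
  have h9 : (49 : ℕ).primeFactors = {7} := by
    have : (49 : ℕ) = 7 ^ 2 := by norm_num
    rw [this]
    exact Nat.primeFactors_prime_pow (by norm_num) (by norm_num)
  rw [h9]
  ext x
  simp only [Finset.mem_erase, Finset.mem_union, Finset.mem_singleton]
  tauto

/-! ### characters and products -/

/-- the quadratic character modulo `7` -/
def x7 (p : ℕ) : ℤ := jacobiSym (p : ℤ) 7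

/-- the primes allowed -/
def PQ (P : Finset ℕ) : Prop := ∀ p ∈ P, p.Prime ∧ p ≠ 2 ∧ p ≠ 3 ∧ p ≠ 7

theorem PQ.sub {P S : Finset ℕ} (h : PQ P) (hS : S ⊆ P) : PQ S := fun p hp => h p (hS hp)

theorem PQ.odd {P : Finset ℕ} (h : PQ P) {p : ℕ} (hp : p ∈ P) : p % 2 = 1 := by
  rcases (h p hp).1.eq_two_or_odd with h1 | h1
  · exact absurd h1 (h p hp).2.1
  · exact h1

theorem x7_sgn {P : Finset ℕ} (h : PQ P) {p : ℕ} (hp : p ∈ P) : Sgn (x7 p) := by
  unfold x7
  apply jac_sgn (by norm_num)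
  intro h1
  have h2 : 7 ∣ p := by exact_mod_cast h1
  exact (h p hp).2.2.2 ((Nat.prime_dvd_prime_iff_eq (by norm_num) (h p hp).1).1 h2).symm

theorem pr_facts {S : Finset ℕ} (h : PQ S) : pr S % 2 = 1 ∧
    ∏ p ∈ S, x4 p = x4 (pr S) ∧ ∏ p ∈ S, x7 p = x7 (pr S) ∧ ∏ p ∈ S, x8 p = x8 (pr S) := by
  classical
  refine ⟨?_, ?_, (jac_pr S 7).symm, ?_⟩
  all_goals
    unfold pr
    induction S using Finset.induction_on with
    | empty => simp [x4, x8]
    | insert a s ha ih => ?_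
  · have i1 := ih (h.sub (Finset.subset_insert _ _))
    have ho := h.odd (mem_insert_self a s)
    simp only [Finset.prod_insert ha]
    rw [Nat.mul_mod, ho, i1]
  · have i1 := ih (h.sub (Finset.subset_insert _ _))
    have ho := h.odd (mem_insert_self a s)
    have : (∏ p ∈ s, p) % 2 = 1 := by
      rw [Finset.prod_nat_mod, Finset.prod_congr rfl (g := fun _ => 1)
        (fun p hp => h.odd (mem_insert_of_mem hp))]
      simp
    simp only [Finset.prod_insert ha]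
    rw [x4_mul ho this, i1]
  · have i1 := ih (h.sub (Finset.subset_insert _ _))
    have ho := h.odd (mem_insert_self a s)
    have : (∏ p ∈ s, p) % 2 = 1 := by
      rw [Finset.prod_nat_mod, Finset.prod_congr rfl (g := fun _ => 1)
        (fun p hp => h.odd (mem_insert_of_mem hp))]
      simp
    simp only [Finset.prod_insert ha]
    rw [x8_mul ho this, i1]

theorem pr_pos {S : Finset ℕ} (h : PQ S) : 0 < pr S := by
  have := (pr_facts h).1
  omega

theorem pr_nd {S : Finset ℕ} (h : PQ S) {l : ℕ} (hl : l.Prime) (hS : l ∉ S) : ¬ l ∣ pr S := by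
  intro h1
  obtain ⟨p, hp, h1⟩ := (Prime.dvd_finsetProd_iff hl.prime _).1 h1
  have := (Nat.prime_dvd_prime_iff_eq hl (h p hp).1).1 h1
  exact hS (this ▸ hp)

theorem PQ.nd7 {S : Finset ℕ} (h : PQ S) : ¬ 7 ∣ pr S :=
  pr_nd h (by norm_num) fun h7 => (h 7 h7).2.2.2 rfl

theorem ee_sgn {P : Finset ℕ} (hP : PQ P) {D l p : ℕ} (hl : l.Prime) (hD : D ≠ 0) (hlD : l ∣ D)
    (hv : l ∈ P → D.factorization l = 1) (hp : p ∈ P) : Sgn (ee D l p) := by
  unfold ee
  split_ifs with h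
  · subst h
    apply jac_sgn hl
    intro h1
    have h2 : p ∣ D / p := by exact_mod_cast h1
    have h3 : p ^ 2 ∣ D := by
      rw [pow_two]
      exact Nat.mul_dvd_of_dvd_div hlD h2
    have := (Nat.Prime.pow_dvd_iff_le_factorization hl hD).1 h3
    rw [hv hp] at this
    omega
  · apply jac_sgn hl
    intro h1
    have h2 : l ∣ p := by exact_mod_cast h1
    exact h ((Nat.prime_dvd_prime_iff_eq hl (hP p hp).1).1 h2).symm

/-- the multipliers -/
def T21 (t : ℕ) : Prop := t = 1 ∨ t = 3 ∨ t = 7 ∨ t = 21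

/-- the residue of the variable factor -/
def rt (t : ℕ) : ℕ := if t = 3 ∨ t = 7 then 1 else 3

theorem T21.cop {t : ℕ} (ht : T21 t) {l : ℕ} (hl : l.Prime) (h3 : l ≠ 3) (h7 : l ≠ 7) : ¬ l ∣ t := by
  intro h
  have a3 : ¬ l ∣ 3 := fun h => h3 ((Nat.prime_dvd_prime_iff_eq hl Nat.prime_three).1 h)
  have a7 : ¬ l ∣ 7 := fun h => h7 ((Nat.prime_dvd_prime_iff_eq hl (by norm_num)).1 h)
  rcases ht with rfl | rfl | rfl | rfl
  · exact hl.one_lt.ne' (Nat.dvd_one.1 h)
  · exact a3 h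
  · exact a7 h
  · rw [show (21 : ℕ) = 3 * 7 by norm_num] at h
    rcases (Nat.Prime.dvd_mul hl).1 h with h | h
    · exact a3 h
    · exact a7 h

theorem fac_prod {P S : Finset ℕ} (hP : PQ P) (hS : S ⊆ P) {t D l : ℕ} (ht : T21 t)
    (hl : l.Prime) (h3 : l ≠ 3) (h7 : l ≠ 7) (hv : l ∈ P → D.factorization l = 1) :
    fac (t * pr S) D l = ∑ j ∈ range (D.factorization l + 1),
      (jacobiSym (-(t : ℤ)) l * ∏ p ∈ S, ee D l p) ^ j := by
  classical
  by_cases hlS : l ∈ S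
  · have hdvd : l ∣ t * pr S := Dvd.dvd.mul_left (Finset.dvd_prod_of_mem _ hlS) _
    have hv1 := hv (hS hlS)
    unfold fac hh
    rw [if_pos hdvd, if_neg (by rw [hv1]; decide), hv1, pow_one]
    have h1 : t * pr S / l = t * pr (S.erase l) := by
      unfold pr
      rw [← Finset.mul_prod_erase S _ hlS]
      rw [show t * (l * ∏ p ∈ S.erase l, p) = l * (t * ∏ p ∈ S.erase l, p) by ring]
      exact Nat.mul_div_cancel_left _ hl.pos
    rw [h1]
    have h2 : ∏ p ∈ S, ee D l p = jacobiSym ((D / l : ℕ) : ℤ) l *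
        ∏ p ∈ S.erase l, jacobiSym (p : ℤ) l := by
      rw [← Finset.mul_prod_erase S _ hlS]
      congr 1
      · unfold ee; rw [if_pos rfl]
      · refine Finset.prod_congr rfl fun p hp => ?_
        unfold ee; rw [if_neg (Finset.ne_of_mem_erase hp)]
    rw [h2, Finset.sum_range_succ, Finset.sum_range_one, pow_zero, pow_one]
    congr 1
    rw [show (-((t * pr (S.erase l) * (D / l) : ℕ) : ℤ)) =
      -(t : ℤ) * ((pr (S.erase l) : ℕ) : ℤ) * ((D / l : ℕ) : ℤ) by push_cast; ring,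
      jacobiSym.mul_left, jacobiSym.mul_left, jac_pr]
    ring
  · have hnd : ¬ l ∣ t * pr S := by
      intro h
      rcases (Nat.Prime.dvd_mul hl).1 h with h | h
      · exact ht.cop hl h3 h7 h
      · exact pr_nd (hP.sub hS) hl hlS h
    unfold fac
    rw [if_neg hnd]
    have h2 : ∏ p ∈ S, ee D l p = ∏ p ∈ S, jacobiSym (p : ℤ) l := by
      refine Finset.prod_congr rfl fun p hp => ?_
      unfold ee; rw [if_neg (by rintro rfl; exact hlS hp)]
    rw [h2, ← jac_pr, ← jacobiSym.mul_left]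
    push_cast
    refine Finset.sum_congr rfl fun j _ => ?_
    congr 2
    ring

/-- exponents: at `2` shifted by two -/
def VV (D l : ℕ) : ℕ := if l = 2 then D.factorization 2 - 2 else D.factorization l

/-- the local signs -/
def e2 (D l p : ℕ) : ℤ := if l = 2 then x8 p else ee D l p

/-- the initial signs -/
def su (t : ℕ) (l : ℕ) : ℤ :=
  if l = 2 then (if t = 3 ∨ t = 21 then -1 else 1) else jacobiSym (-(t : ℤ)) l

/-- the primes away from `42` -/
def L0 (D : ℕ) : Finset ℕ := ((D.primeFactors.erase 2).erase 3).erase 7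

theorem mem_L0 {D l : ℕ} (h : l ∈ L0 D) : l.Prime ∧ l ∣ D ∧ l ≠ 2 ∧ l ≠ 3 ∧ l ≠ 7 := by
  unfold L0 at h
  simp only [Finset.mem_erase, Nat.mem_primeFactors] at h
  exact ⟨h.2.2.2.1, h.2.2.2.2.1, h.2.2.1, h.2.1, h.1⟩

/-- the common part of the local densities -/
def lA (n1 D : ℕ) : ℤ := tw n1 D * ∏ l ∈ L0 D, fac n1 D l

theorem lA_small (n1 : ℕ) {D : ℕ} (h : D.factorization 2 < 2) : lA n1 D = 0 := by
  unfold lA
  rw [tw_small n1 h, zero_mul]

theorem lA_eq {P S : Finset ℕ} (hP : PQ P) (hS : S ⊆ P) {t D : ℕ} (ht : T21 t)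
    (hc : pr S % 4 = rt t)
    (hv : ∀ l ∈ P, l ∣ D → D.factorization l = 1) (h2 : 2 ≤ D.factorization 2) :
    lA (t * pr S) D = FF (insert 2 (L0 D)) (VV D) (su t) (e2 D) S := by
  unfold lA FF
  have h2n : 2 ∉ L0 D := fun h => (mem_L0 h).2.2.1 rfl
  rw [Finset.prod_insert h2n]
  have hf := pr_facts (hP.sub hS)
  congr 1
  · unfold tw VV su e2
    rw [if_pos rfl]
    simp only [if_true]
    rw [hf.2.2.2, show D.factorization 2 - 1 = D.factorization 2 - 2 + 1 by omega]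
    refine Finset.sum_congr rfl fun j _ => ?_
    congr 1
    unfold x8
    generalize pr S = d at hc hf ⊢
    have h8 : d % 8 = 1 ∨ d % 8 = 3 ∨ d % 8 = 5 ∨ d % 8 = 7 := by omega
    rcases ht with rfl | rfl | rfl | rfl <;> norm_num [rt] at hc <;>
      rcases h8 with h8 | h8 | h8 | h8 <;>
      first
      | (exfalso; omega)
      | (rw [Nat.mul_mod, h8]; norm_num)
  · refine Finset.prod_congr rfl fun l hl => ?_
    obtain ⟨a1, a2, a3, a4, a5⟩ := mem_L0 hl
    rw [fac_prod hP hS ht a1 a4 a5 (fun h => hv l h a2)]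
    unfold VV su e2
    simp only [if_neg a3]

theorem su_sgn {t : ℕ} (ht : T21 t) {D l : ℕ} (hl : l ∈ insert 2 (L0 D)) : Sgn (su t l) := by
  unfold su
  by_cases h2 : l = 2
  · rw [if_pos h2]
    split_ifs <;> simp [Sgn]
  · rw [if_neg h2]
    have hl' : l ∈ L0 D := by
      simp only [Finset.mem_insert] at hl
      tauto
    obtain ⟨a1, a2, a3, a4, a5⟩ := mem_L0 hl'
    apply jac_sgn a1
    intro h
    rw [dvd_neg] at h
    exact ht.cop a1 a4 a5 (by exact_mod_cast h)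

theorem e2_sgn {P : Finset ℕ} (hP : PQ P) {D l p : ℕ} (hD : D ≠ 0)
    (hv : ∀ l ∈ P, l ∣ D → D.factorization l = 1) (hl : l ∈ insert 2 (L0 D))
    (hp : p ∈ P) : Sgn (e2 D l p) := by
  unfold e2
  by_cases h2 : l = 2
  · rw [if_pos h2]; exact x8_sgn p
  · rw [if_neg h2]
    have hl' : l ∈ L0 D := by
      simp only [Finset.mem_insert] at hl
      tauto
    obtain ⟨a1, a2, a3, a4, a5⟩ := mem_L0 hl'
    exact ee_sgn hP a1 hD a2 (fun h => hv l h a2) hp

/-- sums over the subsets with product `≡ 1 mod 4` -/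
theorem sumH {P : Finset ℕ} (hP : PQ P) (f : Finset ℕ → ℤ) :
    2 * ∑ S ∈ P.powerset.filter (fun S => pr S % 4 = 1), f S =
      ∑ S ∈ P.powerset, (1 + ∏ p ∈ S, x4 p) * f S := by
  rw [Finset.sum_filter, Finset.mul_sum]
  refine Finset.sum_congr rfl fun S hS => ?_
  have hf := pr_facts (hP.sub (Finset.mem_powerset.1 hS))
  rw [hf.2.1]
  unfold x4
  split_ifs <;> ring

theorem sumHc {P : Finset ℕ} (hP : PQ P) (f : Finset ℕ → ℤ) :
    2 * ∑ S ∈ P.powerset.filter (fun S => pr S % 4 = 3), f S =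
      ∑ S ∈ P.powerset, (1 - ∏ p ∈ S, x4 p) * f S := by
  rw [Finset.sum_filter, Finset.mul_sum]
  refine Finset.sum_congr rfl fun S hS => ?_
  have hf := pr_facts (hP.sub (Finset.mem_powerset.1 hS))
  rw [hf.2.1]
  unfold x4
  have := hf.1
  split_ifs <;> omega

theorem x7_val {n : ℕ} (h : ¬ 7 ∣ n) :
    x7 n = if n % 7 = 3 ∨ n % 7 = 5 ∨ n % 7 = 6 then -1 else 1 := by
  unfold x7
  rw [jacobiSym.mod_left]
  have h1 : n % 7 = 1 ∨ n % 7 = 2 ∨ n % 7 = 3 ∨ n % 7 = 4 ∨ n % 7 = 5 ∨ n % 7 = 6 := by omega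
  have h2 : ((n : ℤ) % ((7 : ℕ) : ℤ)) = ((n % 7 : ℕ) : ℤ) := by push_cast; rfl
  rw [h2]
  rcases h1 with h1 | h1 | h1 | h1 | h1 | h1 <;> rw [h1] <;> norm_num

theorem sumK {P : Finset ℕ} (hP : PQ P) (f : Finset ℕ → ℤ) :
    4 * ∑ S ∈ P.powerset.filter (fun S => pr S % 4 = 3 ∧
      (pr S % 7 = 3 ∨ pr S % 7 = 5 ∨ pr S % 7 = 6)), f S =
      ∑ S ∈ P.powerset, ((1 - ∏ p ∈ S, x4 p) * (1 - ∏ p ∈ S, x7 p)) * f S := by
  rw [Finset.sum_filter, Finset.mul_sum]
  refine Finset.sum_congr rfl fun S hS => ?_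
  have hP' := hP.sub (Finset.mem_powerset.1 hS)
  have hf := pr_facts hP'
  rw [hf.2.1, hf.2.2.1, x7_val hP'.nd7]
  unfold x4
  have h1 := hf.1
  by_cases h3 : pr S % 4 = 1
  · rw [if_neg (by omega), if_pos h3]; ring
  · rw [if_neg h3]
    by_cases h4 : pr S % 7 = 3 ∨ pr S % 7 = 5 ∨ pr S % 7 = 6
    · rw [if_pos ⟨by omega, h4⟩, if_pos h4]; ring
    · rw [if_neg (fun h => h4 h.2), if_neg h4]; ring

/-- the factor at `7` -/
def f7 (D : ℕ) (κ : ℤ) (S : Finset ℕ) : ℤ :=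
  if Even (D.factorization 7) then 1 + κ else 1 + κ * ∏ p ∈ S, x7 p

theorem fac7_eq {t D : ℕ} (ht : T21 t) (hD : 0 < D)
    (h1 : (t = 7 ∨ t = 21) ∨ D.factorization 7 = 1) :
    ∃ κ : ℤ, Sgn κ ∧ ∀ P S : Finset ℕ, PQ P → S ⊆ P → fac (t * pr S) D 7 = f7 D κ S := by
  have p7 : Nat.Prime 7 := by norm_num
  have hu : ¬ (7 : ℤ) ∣ -((D / 7 ^ D.factorization 7 : ℕ) : ℤ) := by
    rw [dvd_neg]
    intro h
    have h' : 7 ∣ D / 7 ^ D.factorization 7 := by exact_mod_cast h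
    exact Nat.not_dvd_ordCompl p7 hD.ne' h'
  have hu' : Sgn (jacobiSym (-((D / 7 ^ D.factorization 7 : ℕ) : ℤ)) 7) := jac_sgn p7 hu
  by_cases ht3 : t = 7 ∨ t = 21
  · obtain ⟨t', ht', h5⟩ : ∃ t' : ℕ, t = 7 * t' ∧ (t' = 1 ∨ t' = 3) := by
      rcases ht3 with rfl | rfl
      · exact ⟨1, rfl, Or.inl rfl⟩
      · exact ⟨3, rfl, Or.inr rfl⟩
    have ht5 : Sgn (jacobiSym (t' : ℤ) 7) := by
      apply jac_sgn p7
      rcases h5 with rfl | rfl <;> norm_num
    by_cases hev : Even (D.factorization 7)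
    · refine ⟨_, hu', fun P S hP hS => ?_⟩
      have hdvd : 7 ∣ t * pr S := by rw [ht', mul_assoc]; exact dvd_mul_right 7 _
      unfold f7 fac hh
      rw [if_pos hev, if_pos hdvd, if_pos hev]
    · refine ⟨jacobiSym (-((D / 7 ^ D.factorization 7 : ℕ) : ℤ)) 7 * jacobiSym (t' : ℤ) 7,
        hu'.mul ht5, fun P S hP hS => ?_⟩
      have hf := pr_facts (hP.sub hS)
      have hdvd : 7 ∣ t * pr S := by rw [ht', mul_assoc]; exact dvd_mul_right 7 _
      unfold f7 fac hh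
      rw [if_neg hev, if_pos hdvd, if_neg hev]
      congr 1
      rw [ht', mul_assoc, Nat.mul_div_cancel_left _ (by norm_num : 0 < 7), hf.2.2.1]
      unfold x7
      rw [← jacobiSym.mul_left, ← jacobiSym.mul_left]
      congr 1
      push_cast
      ring
  · have h31 := h1.resolve_left ht3
    have hev : ¬ Even (D.factorization 7) := by rw [h31]; decide
    have htt : t = 1 ∨ t = 3 := by
      rcases ht with h | h | h | h
      · exact Or.inl h
      · exact Or.inr h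
      · exact absurd (Or.inl h) ht3
      · exact absurd (Or.inr h) ht3
    have hts : Sgn (jacobiSym (-(t : ℤ)) 7) := by
      apply jac_sgn p7
      rcases htt with rfl | rfl <;> norm_num
    refine ⟨_, hts, fun P S hP hS => ?_⟩
    have hf := pr_facts (hP.sub hS)
    have hnd : ¬ 7 ∣ t * pr S := by
      intro h
      rcases (Nat.Prime.dvd_mul p7).1 h with h | h
      · rcases htt with rfl | rfl <;> norm_num at h
      · exact (hP.sub hS).nd7 h
    unfold f7 fac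
    rw [if_neg hev, if_neg hnd, h31, Finset.sum_range_succ, Finset.sum_range_one, pow_zero, pow_one]
    congr 1
    rw [hf.2.2.1]
    unfold x7
    rw [← jacobiSym.mul_left]
    congr 1
    push_cast
    ring

theorem loc_eq7 {n1 D : ℕ} (hD : 0 < D) (h7D : 7 ∣ D) :
    loc n1 D = if Odd (D.factorization 3) then fac n1 D 7 * lA n1 D else 0 := by
  unfold loc lA
  split_ifs with h5
  · have hm : 7 ∈ (D.primeFactors.erase 2).erase 3 := by
      simp only [Finset.mem_erase, Nat.mem_primeFactors]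
      exact ⟨by norm_num, by norm_num, by norm_num, h7D, by omega⟩
    rw [← Finset.mul_prod_erase _ _ hm]
    unfold L0
    ring
  · rfl

/-- the sum over the residue class of the family -/
theorem sumT {P : Finset ℕ} (hP : PQ P) (t : ℕ) (f : Finset ℕ → ℤ) :
    2 * ∑ S ∈ P.powerset.filter (fun S => pr S % 4 = rt t), f S =
      ∑ S ∈ P.powerset, (1 + (if t = 3 ∨ t = 7 then 1 else -1) * ∏ p ∈ S, x4 p) * f S := by
  unfold rt
  split_ifs
  · rw [sumH hP]; simp
  · rw [sumHc hP]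
    refine Finset.sum_congr rfl fun S _ => ?_
    ring

/-- the signs occurring in the sums -/
theorem gs_split {P L : Finset ℕ} {V : ℕ → ℕ} {s : ℕ → ℤ} {e : ℕ → ℕ → ℤ} (a b c d : ℤ) :
    ∑ S ∈ P.powerset, (a + b * ∏ p ∈ S, x4 p + c * ∏ p ∈ S, x7 p +
      d * ((∏ p ∈ S, x4 p) * ∏ p ∈ S, x7 p)) * FF L V s e S =
    a * GS P L V s e (fun _ => 1) + b * GS P L V s e x4 + c * GS P L V s e x7 +
      d * GS P L V s e (fun p => x4 p * x7 p) := by
  unfold GS
  simp only [Finset.mul_sum, ← Finset.sum_add_distrib]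
  refine Finset.sum_congr rfl fun S _ => ?_
  rw [Finset.prod_const_one, Finset.prod_mul_distrib]
  ring

/-- the reference value -/
def RV (P : Finset ℕ) (D : ℕ) : ℤ :=
  if Odd (D.factorization 3) ∧ 2 ≤ D.factorization 2 ∧ ¬ Even (D.factorization 7) then
    GS P (insert 2 (L0 D)) (VV D) (fun _ => 1) (e2 D) (fun _ => 1) +
    GS P (insert 2 (L0 D)) (VV D) (fun _ => 1) (e2 D) x4 +
    GS P (insert 2 (L0 D)) (VV D) (fun _ => 1) (e2 D) x7 +
    GS P (insert 2 (L0 D)) (VV D) (fun _ => 1) (e2 D) (fun p => x4 p * x7 p)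
  else 0

/-- all the families agree modulo `2 ^ (k + 1)` -/
theorem famT {P : Finset ℕ} (hP : PQ P) {t D : ℕ} (ht : T21 t) (hD : 0 < D) (h7D : 7 ∣ D)
    (hv : ∀ l ∈ P, l ∣ D → D.factorization l = 1)
    (h1 : (t = 7 ∨ t = 21) ∨ D.factorization 7 = 1) :
    (2 : ℤ) ^ (P.card + 1) ∣
      2 * ∑ S ∈ P.powerset.filter (fun S => pr S % 4 = rt t), loc (t * pr S) D - RV P D ∧
    (2 : ℤ) ^ P.card ∣ RV P D := by
  obtain ⟨κ, hκ, hf3⟩ := fac7_eq ht hD h1
  simp only [loc_eq7 hD h7D]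
  by_cases h5 : Odd (D.factorization 3)
  swap
  · simp only [if_neg h5]
    unfold RV
    rw [if_neg (fun h => h5 h.1)]
    simp
  simp only [if_pos h5]
  by_cases h2 : 2 ≤ D.factorization 2
  swap
  · have h0 : ∀ n1, lA n1 D = 0 := fun n1 => lA_small n1 (by omega)
    unfold RV
    rw [if_neg (fun h => h2 h.2.1)]
    simp [h0]
  set L := insert 2 (L0 D) with hL
  have he : ∀ l ∈ L, ∀ p ∈ P, Sgn (e2 D l p) := fun l hl p hp => e2_sgn hP hD.ne' hv hl hp
  have hst : ∀ l ∈ L, Sgn (su t l) := fun l hl => su_sgn ht hl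
  have hs1 : ∀ l ∈ L, Sgn ((fun _ => 1 : ℕ → ℤ) l) := fun l _ => Or.inl rfl
  have key := abs1 P (VV D) (su t) (fun _ => 1) (e2 D) L hst hs1 he
  have key' := abs1 P (VV D) (fun _ => 1) (fun _ => 1) (e2 D) L hs1 hs1 he
  have A1 := key (fun _ => 1) (fun _ _ => Or.inl rfl)
  have A2 := key x4 (fun p _ => x4_sgn p)
  have A3 := key x7 (fun p hp => x7_sgn hP hp)
  have A4 := key (fun p => x4 p * x7 p) (fun p hp => (x4_sgn p).mul (x7_sgn hP hp))
  have B1 := (key' (fun _ => 1) (fun _ _ => Or.inl rfl)).1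
  have B2 := (key' x4 (fun p _ => x4_sgn p)).1
  have B3 := (key' x7 (fun p hp => x7_sgn hP hp)).1
  have B4 := (key' (fun p => x4 p * x7 p) (fun p hp => (x4_sgn p).mul (x7_sgn hP hp))).1
  set X1 := GS P L (VV D) (su t) (e2 D) (fun _ => 1) with hX1
  set X2 := GS P L (VV D) (su t) (e2 D) x4 with hX2
  set X3 := GS P L (VV D) (su t) (e2 D) x7 with hX3
  set X4 := GS P L (VV D) (su t) (e2 D) (fun p => x4 p * x7 p) with hX4
  set Y1 := GS P L (VV D) (fun _ => 1) (e2 D) (fun _ => 1) with hY1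
  set Y2 := GS P L (VV D) (fun _ => 1) (e2 D) x4 with hY2
  set Y3 := GS P L (VV D) (fun _ => 1) (e2 D) x7 with hY3
  set Y4 := GS P L (VV D) (fun _ => 1) (e2 D) (fun p => x4 p * x7 p) with hY4
  set η : ℤ := if t = 3 ∨ t = 7 then 1 else -1 with hη
  have hηs : Sgn η := by rw [hη]; split_ifs <;> simp [Sgn]
  have e1 : 2 * ∑ S ∈ P.powerset.filter (fun S => pr S % 4 = rt t),
      fac (t * pr S) D 7 * lA (t * pr S) D =
      if Even (D.factorization 7) then (1 + κ) * (X1 + η * X2)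
      else X1 + η * X2 + κ * X3 + η * κ * X4 := by
    have h1 : ∑ S ∈ P.powerset.filter (fun S => pr S % 4 = rt t),
        fac (t * pr S) D 7 * lA (t * pr S) D =
        ∑ S ∈ P.powerset.filter (fun S => pr S % 4 = rt t),
          f7 D κ S * FF L (VV D) (su t) (e2 D) S := by
      refine Finset.sum_congr rfl fun S hS => ?_
      obtain ⟨a1, a2⟩ := Finset.mem_filter.1 hS
      rw [← lA_eq hP (Finset.mem_powerset.1 a1) ht a2 hv h2, hf3 P S hP (Finset.mem_powerset.1 a1)]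
    rw [h1, sumT hP t, ← hη]
    unfold f7
    by_cases h : Even (D.factorization 7)
    · simp only [if_pos h]
      have h3 := gs_split (P := P) (L := L) (V := VV D) (s := su t) (e := e2 D) (1 + κ)
        ((1 + κ) * η) 0 0
      rw [show (1 + κ) * (X1 + η * X2) = (1 + κ) * X1 + ((1 + κ) * η) * X2 + 0 * X3 + 0 * X4 by ring,
        ← h3]
      refine Finset.sum_congr rfl fun S _ => ?_
      ring
    · simp only [if_neg h]
      have h3 := gs_split (P := P) (L := L) (V := VV D) (s := su t) (e := e2 D) 1 η κ (η * κ)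
      rw [show X1 + η * X2 + κ * X3 + η * κ * X4 = 1 * X1 + η * X2 + κ * X3 + η * κ * X4 by ring,
        ← h3]
      refine Finset.sum_congr rfl fun S _ => ?_
      ring
  rw [e1]
  unfold RV
  by_cases hev : Even (D.factorization 7)
  · rw [if_pos hev, if_neg (fun h => h.2.2 hev), sub_zero]
    refine ⟨?_, dvd_zero _⟩
    rw [pow_succ, mul_comm ((2 : ℤ) ^ _) 2]
    refine mul_dvd_mul ?_ (dvd_add A1.1 (Dvd.dvd.mul_left A2.1 _))
    have := hκ.odd
    omega
  · rw [if_neg hev, if_pos ⟨h5, h2, hev⟩]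
    refine ⟨?_, dvd_add (dvd_add (dvd_add B1 B2) B3) B4⟩
    have e : X1 + η * X2 + κ * X3 + η * κ * X4 - (Y1 + Y2 + Y3 + Y4) =
        (1 * X1 - Y1) + (η * X2 - Y2) + (κ * X3 - Y3) + (η * κ * X4 - Y4) := by ring
    rw [e]
    exact dvd_add (dvd_add (dvd_add (adj A1.1 A1.2 (Or.inl rfl)) (adj A2.1 A2.2 hηs))
      (adj A3.1 A3.2 hκ)) (adj A4.1 A4.2 (hηs.mul hκ))

/-- one family -/
theorem famS {P : Finset ℕ} (hP : PQ P) {t D : ℕ} (ht : T21 t) (hD : 0 < D)
    (h7D : 7 ∣ D) (hv : ∀ l ∈ P, l ∣ D → D.factorization l = 1)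
    (h1 : (t = 7 ∨ t = 21) ∨ D.factorization 7 = 1) :
    (2 : ℤ) ^ P.card ∣
      2 * ∑ S ∈ P.powerset.filter (fun S => pr S % 4 = rt t), loc (t * pr S) D := by
  obtain ⟨a1, a2⟩ := famT hP ht hD h7D hv h1
  have e : 2 * ∑ S ∈ P.powerset.filter (fun S => pr S % 4 = rt t), loc (t * pr S) D =
    (2 * ∑ S ∈ P.powerset.filter (fun S => pr S % 4 = rt t), loc (t * pr S) D - RV P D) +
      RV P D := by ring
  rw [e]
  exact dvd_add ((pow_dvd_pow 2 (Nat.le_succ _)).trans a1) a2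

/-- two families together -/
theorem famTT {P : Finset ℕ} (hP : PQ P) {t t' D : ℕ} (ht : T21 t) (ht' : T21 t') (hD : 0 < D)
    (h7D : 7 ∣ D) (hv : ∀ l ∈ P, l ∣ D → D.factorization l = 1)
    (h1 : (t = 7 ∨ t = 21) ∨ D.factorization 7 = 1)
    (h1' : (t' = 7 ∨ t' = 21) ∨ D.factorization 7 = 1) :
    (2 : ℤ) ^ P.card ∣ ∑ S ∈ P.powerset.filter (fun S => pr S % 4 = rt t), loc (t * pr S) D +
      ∑ S ∈ P.powerset.filter (fun S => pr S % 4 = rt t'), loc (t' * pr S) D := by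
  obtain ⟨a1, a2⟩ := famT hP ht hD h7D hv h1
  obtain ⟨b1, -⟩ := famT hP ht' hD h7D hv h1'
  set U := ∑ S ∈ P.powerset.filter (fun S => pr S % 4 = rt t), loc (t * pr S) D
  set W := ∑ S ∈ P.powerset.filter (fun S => pr S % 4 = rt t'), loc (t' * pr S) D
  have h : (2 : ℤ) ^ (P.card + 1) ∣ 2 * (U + W) := by
    have e : 2 * (U + W) = (2 * U - RV P D) + (2 * W - RV P D) + 2 * RV P D := by ring
    rw [e]
    refine dvd_add (dvd_add a1 b1) ?_
    rw [pow_succ, mul_comm ((2 : ℤ) ^ _) 2]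
    exact mul_dvd_mul_left 2 a2
  rw [pow_succ, mul_comm ((2 : ℤ) ^ _) 2] at h
  exact (mul_dvd_mul_iff_left (by norm_num : (2 : ℤ) ≠ 0)).1 h

/-- the inner product zero -/
theorem loc0 {P S : Finset ℕ} (hP : PQ P) (hS : S ⊆ P) {t D : ℕ} (ht : T21 t) (hD : 0 < D)
    (h7D : 7 ∣ D) (hv : ∀ l ∈ P, D.factorization l = 1)
    (h1 : (t = 7 ∨ t = 21) ∨ D.factorization 7 = 1) :
    (2 : ℤ) ^ (P.card + 1) ∣ loc (t * pr S) D := by
  obtain ⟨κ, hκ, hf3⟩ := fac7_eq ht hD h1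
  rw [loc_eq7 hD h7D]
  split_ifs with h5
  swap
  · exact dvd_zero _
  have hd : ∀ l ∈ P, l ∣ D := fun l hl => by
    have := hv l hl
    exact Nat.dvd_of_factorization_pos (by omega)
  have hPL : P ⊆ L0 D := by
    intro l hl
    obtain ⟨a1, a2, a3, a4⟩ := hP l hl
    unfold L0
    simp only [Finset.mem_erase, Nat.mem_primeFactors]
    exact ⟨a4, a3, a2, a1, hd l hl, hD.ne'⟩
  have e1 : (2 : ℤ) ∣ fac (t * pr S) D 7 := by
    rw [hf3 P S hP hS]
    unfold f7
    have hx : Sgn (∏ p ∈ S, x7 p) := Sgn.prod fun p hp => x7_sgn hP (hS hp)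
    split_ifs
    · have := hκ.odd
      omega
    · have := (hκ.mul hx).odd
      omega
  have e2 : (2 : ℤ) ^ P.card ∣ ∏ l ∈ L0 D, fac (t * pr S) D l := by
    refine Dvd.dvd.trans ?_ (Finset.prod_dvd_prod_of_subset _ _ _ hPL)
    rw [← Finset.prod_const]
    refine Finset.prod_dvd_prod_of_dvd _ _ fun l hl => ?_
    obtain ⟨a1, a2, a3, a4⟩ := hP l hl
    rw [fac_prod hP hS ht a1 a3 a4 (fun _ => hv l hl), hv l hl, Finset.sum_range_succ,
      Finset.sum_range_one, pow_zero, pow_one]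
    have hs1 : Sgn (jacobiSym (-(t : ℤ)) l) := by
      apply jac_sgn a1
      rw [dvd_neg]
      intro h
      exact ht.cop a1 a3 a4 (by exact_mod_cast h)
    have hs2 : Sgn (∏ p ∈ S, ee D l p) := Sgn.prod fun p hp =>
      ee_sgn hP a1 hD.ne' (hd l hl) (fun _ => hv l hl) (hS hp)
    have := (hs1.mul hs2).odd
    omega
  rw [pow_succ, mul_comm ((2 : ℤ) ^ _) 2]
  refine mul_dvd_mul e1 ?_
  unfold lA
  exact Dvd.dvd.mul_left e2 _

theorem GS_congr {P L : Finset ℕ} {V V' : ℕ → ℕ} {s : ℕ → ℤ} {e e' : ℕ → ℕ → ℤ} (ψ : ℕ → ℤ)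
    (hV : ∀ l ∈ L, V l = V' l) (he : ∀ l ∈ L, ∀ p ∈ P, e l p = e' l p) :
    GS P L V s e ψ = GS P L V' s e' ψ := by
  unfold GS FF
  refine Finset.sum_congr rfl fun S hS => ?_
  congr 1
  refine Finset.prod_congr rfl fun l hl => ?_
  rw [hV l hl]
  refine Finset.sum_congr rfl fun j _ => ?_
  congr 2
  exact Finset.prod_congr rfl fun p hp => he l hl p (Finset.mem_powerset.1 hS hp)

theorem L049 {D : ℕ} (hD : 0 < D) : L0 (49 * D) = L0 D := pf49 D hD

theorem RV49 {P : Finset ℕ} {D : ℕ} (hD : 0 < D) : RV P (49 * D) = RV P D := by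
  have h3 : (49 * D).factorization 3 = D.factorization 3 := fact49 D 3 hD (by norm_num) (by norm_num)
  have h2 : (49 * D).factorization 2 = D.factorization 2 := fact49 D 2 hD (by norm_num) (by norm_num)
  have h7 : Even (2 + D.factorization 7) ↔ Even (D.factorization 7) := by
    rw [Nat.even_add]
    simp
  have hV : ∀ l ∈ insert 2 (L0 D), VV (49 * D) l = VV D l := by
    intro l hl
    unfold VV
    rw [h2]
    split_ifs with h
    · rfl
    · have hl' : l ∈ L0 D := by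
        simp only [Finset.mem_insert] at hl
        tauto
      obtain ⟨a1, a2, a3, a4, a5⟩ := mem_L0 hl'
      exact fact49 D l hD a1 a5
  have he : ∀ l ∈ insert 2 (L0 D), ∀ p ∈ P, e2 (49 * D) l p = e2 D l p := by
    intro l hl p _
    unfold e2 ee
    split_ifs with h h'
    · rfl
    · have hl' : l ∈ L0 D := by
        simp only [Finset.mem_insert] at hl
        tauto
      obtain ⟨a1, a2, a3, a4, a5⟩ := mem_L0 hl'
      rw [Nat.mul_div_assoc _ a2]
      push_cast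
      exact jac49 _ l a1 a5
    · rfl
  unfold RV
  rw [h3, h2, fact49_7 D hD, L049 hD]
  rw [GS_congr _ hV he, GS_congr _ hV he, GS_congr _ hV he, GS_congr _ hV he]
  simp only [h7]

/-- the sum over the second kind of factorizations -/
theorem keyK {P : Finset ℕ} (hP : PQ P) {D : ℕ} (hD : 0 < D)
    (hv : ∀ l ∈ P, l ∣ D → D.factorization l = 1) :
    (2 : ℤ) ^ (P.card + 1) ∣
      4 * ∑ S ∈ P.powerset.filter (fun S => pr S % 4 = 3 ∧
        (pr S % 7 = 3 ∨ pr S % 7 = 5 ∨ pr S % 7 = 6)), loc7 (pr S) D - RV P D := by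
  have hloc7 : ∀ n1, loc7 n1 D = if Odd (D.factorization 3) then
      (D.factorization 7 : ℤ) * lA n1 D else 0 := by
    intro n1
    unfold loc7 lrest lA L0
    split_ifs
    · rfl
    · rw [mul_zero]
  simp only [hloc7]
  by_cases h5 : Odd (D.factorization 3)
  swap
  · simp only [if_neg h5]
    unfold RV
    rw [if_neg (fun h => h5 h.1)]
    simp
  simp only [if_pos h5]
  by_cases h2 : 2 ≤ D.factorization 2
  swap
  · have h0 : ∀ n1, lA n1 D = 0 := fun n1 => lA_small n1 (by omega)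
    unfold RV
    rw [if_neg (fun h => h2 h.2.1)]
    simp [h0]
  have ht : T21 1 := Or.inl rfl
  set w := D.factorization 7 with hw
  set L := insert 2 (L0 D) with hL
  have he : ∀ l ∈ L, ∀ p ∈ P, Sgn (e2 D l p) := fun l hl p hp => e2_sgn hP hD.ne' hv hl hp
  have hst : ∀ l ∈ L, Sgn (su 1 l) := fun l hl => su_sgn ht hl
  have hs1 : ∀ l ∈ L, Sgn ((fun _ => 1 : ℕ → ℤ) l) := fun l _ => Or.inl rfl
  have key := abs1 P (VV D) (su 1) (fun _ => 1) (e2 D) L hst hs1 he
  have A1 := key (fun _ => 1) (fun _ _ => Or.inl rfl)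
  have A2 := key x4 (fun p _ => x4_sgn p)
  have A3 := key x7 (fun p hp => x7_sgn hP hp)
  have A4 := key (fun p => x4 p * x7 p) (fun p hp => (x4_sgn p).mul (x7_sgn hP hp))
  set X1 := GS P L (VV D) (su 1) (e2 D) (fun _ => 1) with hX1
  set X2 := GS P L (VV D) (su 1) (e2 D) x4 with hX2
  set X3 := GS P L (VV D) (su 1) (e2 D) x7 with hX3
  set X4 := GS P L (VV D) (su 1) (e2 D) (fun p => x4 p * x7 p) with hX4
  set Y1 := GS P L (VV D) (fun _ => 1) (e2 D) (fun _ => 1) with hY1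
  set Y2 := GS P L (VV D) (fun _ => 1) (e2 D) x4 with hY2
  set Y3 := GS P L (VV D) (fun _ => 1) (e2 D) x7 with hY3
  set Y4 := GS P L (VV D) (fun _ => 1) (e2 D) (fun p => x4 p * x7 p) with hY4
  have hR : 4 * ∑ S ∈ P.powerset.filter (fun S => pr S % 4 = 3 ∧
      (pr S % 7 = 3 ∨ pr S % 7 = 5 ∨ pr S % 7 = 6)), (w : ℤ) * lA (pr S) D =
      w * (X1 - X2 - X3 + X4) := by
    have h1 : ∑ S ∈ P.powerset.filter (fun S => pr S % 4 = 3 ∧
        (pr S % 7 = 3 ∨ pr S % 7 = 5 ∨ pr S % 7 = 6)), (w : ℤ) * lA (pr S) D =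
        ∑ S ∈ P.powerset.filter (fun S => pr S % 4 = 3 ∧
          (pr S % 7 = 3 ∨ pr S % 7 = 5 ∨ pr S % 7 = 6)),
          (w : ℤ) * FF L (VV D) (su 1) (e2 D) S := by
      refine Finset.sum_congr rfl fun S hS => ?_
      obtain ⟨a1, a2, a3⟩ := Finset.mem_filter.1 hS
      rw [← lA_eq hP (Finset.mem_powerset.1 a1) ht a2 hv h2, one_mul]
    rw [h1, sumK hP]
    have h3 := gs_split (P := P) (L := L) (V := VV D) (s := su 1) (e := e2 D) 1 (-1) (-1) 1
    have h4 : ∑ S ∈ P.powerset, (1 - ∏ p ∈ S, x4 p) * (1 - ∏ p ∈ S, x7 p) *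
        ((w : ℤ) * FF L (VV D) (su 1) (e2 D) S) =
        w * ∑ S ∈ P.powerset, (1 + (-1) * ∏ p ∈ S, x4 p + (-1) * ∏ p ∈ S, x7 p +
          1 * ((∏ p ∈ S, x4 p) * ∏ p ∈ S, x7 p)) * FF L (VV D) (su 1) (e2 D) S := by
      rw [Finset.mul_sum]
      refine Finset.sum_congr rfl fun S _ => ?_
      ring
    rw [h4, h3]
    ring
  rw [hR]
  unfold RV
  by_cases hev : Even w
  · rw [if_neg (fun h => h.2.2 hev), sub_zero]
    obtain ⟨v, hv'⟩ := hev
    have hw2 : (w : ℤ) = 2 * v := by rw [hv']; push_cast; ring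
    rw [hw2, pow_succ, mul_comm ((2 : ℤ) ^ _) 2, mul_assoc]
    exact mul_dvd_mul_left 2 (Dvd.dvd.mul_left
      (dvd_add (dvd_sub (dvd_sub A1.1 A2.1) A3.1) A4.1) _)
  · rw [if_pos ⟨h5, h2, hev⟩]
    have ho : Odd w := Nat.not_even_iff_odd.1 hev
    obtain ⟨v, hv'⟩ := ho
    have hw2 : (w : ℤ) = 2 * v + 1 := by rw [hv']; push_cast; ring
    have e : (w : ℤ) * (X1 - X2 - X3 + X4) - (Y1 + Y2 + Y3 + Y4) =
        2 * (v * (X1 - X2 - X3 + X4)) +
        ((1 * X1 - Y1) + ((-1) * X2 - Y2) + ((-1) * X3 - Y3) + (1 * X4 - Y4)) := by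
      rw [hw2]; ring
    rw [e]
    refine dvd_add ?_ (dvd_add (dvd_add (dvd_add (adj A1.1 A1.2 (Or.inl rfl))
      (adj A2.1 A2.2 (Or.inr rfl))) (adj A3.1 A3.2 (Or.inr rfl))) (adj A4.1 A4.2 (Or.inl rfl)))
    rw [pow_succ, mul_comm ((2 : ℤ) ^ _) 2]
    exact mul_dvd_mul_left 2 (Dvd.dvd.mul_left
      (dvd_add (dvd_sub (dvd_sub A1.1 A2.1) A3.1) A4.1) _)

/-- the key comparison for a fixed inner product, both norms divisible by `7` -/
theorem key77 {P : Finset ℕ} (hP : PQ P) {D : ℕ} (hD : 0 < D)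
    (hv : ∀ l ∈ P, l ∣ D → D.factorization l = 1) :
    (2 : ℤ) ^ (P.card + 1) ∣
      2 * ∑ S ∈ P.powerset.filter (fun S => pr S % 4 = 1), loc (7 * pr S) (49 * D) -
      4 * ∑ S ∈ P.powerset.filter (fun S => pr S % 4 = 3 ∧
        (pr S % 7 = 3 ∨ pr S % 7 = 5 ∨ pr S % 7 = 6)), loc7 (pr S) D ∧
    (2 : ℤ) ^ P.card ∣
      4 * ∑ S ∈ P.powerset.filter (fun S => pr S % 4 = 3 ∧
        (pr S % 7 = 3 ∨ pr S % 7 = 5 ∨ pr S % 7 = 6)), loc7 (pr S) D := by
  have hv' : ∀ l ∈ P, l ∣ 49 * D → (49 * D).factorization l = 1 := by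
    intro l hl hlD
    obtain ⟨a1, a2, a3, a4⟩ := hP l hl
    rw [fact49 D l hD a1 a4]
    apply hv l hl
    rcases (Nat.Prime.dvd_mul a1).1 hlD with h | h
    · exfalso
      have h1 : l ∣ 7 ^ 2 := by norm_num; exact h
      have h2 := a1.dvd_of_dvd_pow h1
      rw [Nat.prime_dvd_prime_iff_eq a1 (by norm_num)] at h2
      exact a4 h2
    · exact h
  have h1 := famT hP (t := 7) (Or.inr (Or.inr (Or.inl rfl))) (D := 49 * D) (by omega)
    ⟨7 * D, by ring⟩ hv' (Or.inl (Or.inl rfl))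
  rw [RV49 hD, show rt 7 = 1 from rfl] at h1
  have h2 := keyK hP hD hv
  set U := ∑ S ∈ P.powerset.filter (fun S => pr S % 4 = 1), loc (7 * pr S) (49 * D)
  set W := ∑ S ∈ P.powerset.filter (fun S => pr S % 4 = 3 ∧
        (pr S % 7 = 3 ∨ pr S % 7 = 5 ∨ pr S % 7 = 6)), loc7 (pr S) D
  constructor
  · have e : 2 * U - 4 * W = (2 * U - RV P D) - (4 * W - RV P D) := by ring
    rw [e]
    exact dvd_sub h1.1 h2
  · have e : 4 * W = (4 * W - RV P D) + RV P D := by ring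
    rw [e]
    exact dvd_add ((pow_dvd_pow 2 (Nat.le_succ _)).trans h2) h1.2

end Pool.Agent.N218.P21
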