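import Pool.Agent.N218.P21.Core

/-!
# P21: the parity of the Gross sums
-/

set_option autoImplicit false

namespace Pool.Agent.N218.P21

open Finset
open Pool.Agent.N969.P15 (V3 tw Ev Qc Qe)
open Pool.Agent.N877.P21
open Pool.Agent.Z700 (hh fac)
open Pool.Agent.N218.P15 (pr sum_div_filter card_cop val_mul pr_dvd quo_eq)
open Pool.Agent.N871.P15 (odd_dvd_cancel mod_div card_mul)

theorem rr_seven : rr 7 = 12 := by
  unfold rr
  have : (vec 7).card = 12 := by decide +kernel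
  rw [this]; rfl

theorem rr0_seven : rr0 7 = 0 := by
  unfold rr0
  have : ((vec 7).filter fun v => (7 : ℤ) ∣ 3 * v 1 + v 2).card = 0 := by decide +kernel
  rw [this]; rfl

theorem cc_seven : cc 7 = 12 := by
  rw [cc, if_pos (by norm_num), rr_seven, rr0_seven]
  norm_num

theorem vec_zero {n : ℕ} (h : n % 3 = 2) : vec (n : ℤ) = ∅ := by
  rw [Finset.eq_empty_iff_forall_notMem]
  intro v hv
  rw [mem_vec] at hv
  have h1 : ip v v = (v 1 - v 2) ^ 2 + 3 * (v 0 ^ 2 + v 1 ^ 2 + v 2 ^ 2 + 2 * (v 1 * v 2)) := by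
    unfold ip
    ring
  rw [hv] at h1
  generalize v 1 - v 2 = u at h1
  generalize v 0 ^ 2 + v 1 ^ 2 + v 2 ^ 2 + 2 * (v 1 * v 2) = N at h1
  have h9 : u % 3 = 0 ∨ u % 3 = 1 ∨ u % 3 = 2 := by omega
  rcases h9 with h9 | h9 | h9
  · have : u ^ 2 % 3 = 0 := by rw [sq, Int.mul_emod, h9]; norm_num
    omega
  · have : u ^ 2 % 3 = 1 := by rw [sq, Int.mul_emod, h9]; norm_num
    omega
  · have : u ^ 2 % 3 = 1 := by rw [sq, Int.mul_emod, h9]; norm_num
    omega

theorem rr_zero {n : ℕ} (h : n % 3 = 2) : rr n = 0 := by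
  rw [rr, vec_zero h]; rfl

theorem cc_zero {n : ℕ} (h : n % 3 = 2) : cc n = 0 := by
  rw [cc, rr0, vec_zero h, rr_zero h]
  simp

/-- the data of the inductions -/
structure XT (t c A x : ℕ) : Prop where
  hx : x = c * A
  hs : Squarefree A
  h2 : ¬ 2 ∣ A
  h3 : ¬ 3 ∣ x
  h7 : ¬ 7 ∣ x
  hr : (c = 1 ∧ A % 4 = rt t) ∨ (c = 4 ∧ A % 4 + rt t = 4) ∨ c = 8

section XT

variable {t c A x : ℕ}

theorem XT.cc3 (h : XT t c A x) : c = 1 ∨ c = 4 ∨ c = 8 := by
  rcases h.hr with h | h | h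
  · exact Or.inl h.1
  · exact Or.inr (Or.inl h.1)
  · exact Or.inr (Or.inr h)

theorem XT.pos (h : XT t c A x) : 0 < x := by
  have h1 := Nat.pos_of_ne_zero h.hs.ne_zero
  rw [h.hx]
  rcases h.cc3 with rfl | rfl | rfl <;> omega

theorem XT.Apos (h : XT t c A x) : 0 < A := Nat.pos_of_ne_zero h.hs.ne_zero

theorem XT.Ax (h : XT t c A x) : A ∣ x := ⟨c, by rw [h.hx]; ring⟩

theorem XT.cop {d : ℕ} (h : XT t c A x) (hd : d ∣ A) : Nat.Coprime d c := by
  have h1 : ¬ 2 ∣ d := fun h3 => h.h2 (h3.trans hd)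
  have h3 : Nat.Coprime d 2 := (Nat.coprime_two_right).2 (Nat.odd_iff.2 (by omega))
  rcases h.cc3 with rfl | rfl | rfl
  · exact Nat.coprime_one_right d
  · exact (show (4 : ℕ) = 2 ^ 2 by norm_num) ▸ h3.pow_right 2
  · exact (show (8 : ℕ) = 2 ^ 3 by norm_num) ▸ h3.pow_right 3

theorem XT.dvd {d : ℕ} (h : XT t c A x) (hd : d ∣ A) : d ∣ x ∧ d % 2 = 1 ∧ 0 < d ∧
    x / d = c * (A / d) ∧ Nat.Coprime d (x / d) ∧ Squarefree d ∧ Squarefree (A / d) := by
  have hcop := h.cop hd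
  have hA := h.Apos
  obtain ⟨B, hB⟩ := hd
  have hd0 : 0 < d := Nat.pos_of_ne_zero (by rintro rfl; rw [zero_mul] at hB; omega)
  have h1 : d % 2 = 1 := by
    have : ¬ 2 ∣ d := fun h3 => h.h2 (h3.trans ⟨B, hB⟩)
    omega
  have e1 : A / d = B := by rw [hB]; exact Nat.mul_div_cancel_left _ hd0
  have e2 : x / d = c * B := by
    rw [h.hx, hB, show c * (d * B) = d * (c * B) by ring]
    exact Nat.mul_div_cancel_left _ hd0
  have hs := h.hs
  rw [hB] at hs
  have hs' := Nat.squarefree_mul_iff.1 hs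
  refine ⟨?_, h1, hd0, by rw [e2, e1], ?_, hs'.2.1, by rw [e1]; exact hs'.2.2⟩
  · rw [h.hx, hB]; exact ⟨c * B, by ring⟩
  · rw [e2]
    exact Nat.Coprime.mul_right hcop hs'.1

theorem XT.split {d : ℕ} (h : XT t c A x) (hd : d ∣ A) :
    x.primeFactors.card = d.primeFactors.card + (x / d).primeFactors.card := by
  obtain ⟨h1, -, h3, -, h5, -⟩ := h.dvd hd
  have e1 : d * (x / d) = x := Nat.mul_div_cancel' h1
  have hx0 := h.pos
  have hmd0 : x / d ≠ 0 := by
    intro h0; rw [h0, mul_zero] at e1; omega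
  rw [← card_cop h5 (by omega) hmd0, e1]

theorem XT.nd3 {d : ℕ} (h : XT t c A x) (hd : d ∣ x) : ¬ 3 ∣ d := fun h' => h.h3 (h'.trans hd)

theorem XT.nd7 {d : ℕ} (h : XT t c A x) (hd : d ∣ x) : ¬ 7 ∣ d := fun h' => h.h7 (h'.trans hd)

theorem rt_val (t : ℕ) : rt t = 1 ∨ rt t = 3 := by
  unfold rt; split_ifs <;> simp

theorem XT.fam1 {d : ℕ} (h : XT t c A x) (hd : d ∣ A) (h4 : d % 4 = 1) :
    XT 7 1 d d ∧ XT t c (A / d) (x / d) := by
  obtain ⟨h1, h2, h3, h5, h6, h8, h9⟩ := h.dvd hd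
  refine ⟨⟨by rw [one_mul], h8, by omega, h.nd3 h1, h.nd7 h1, Or.inl ⟨rfl, by rw [h4]; rfl⟩⟩,
    ⟨h5, h9, fun h' => h.h2 (h'.trans (Nat.div_dvd_of_dvd hd)),
      h.nd3 (Nat.div_dvd_of_dvd h1), h.nd7 (Nat.div_dvd_of_dvd h1), ?_⟩⟩
  have hm := mod_div (q := 4) hd
  have e : A / d % 4 = A % 4 := by rw [h4] at hm; omega
  rw [e]
  exact h.hr

theorem XT.fam2 {d : ℕ} (h : XT t c A x) (hc : c ≠ 1) (hd : d ∣ A) (h4 : d % 4 = rt t) :
    XT t 1 d d ∧ XT 7 c (A / d) (x / d) := by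
  obtain ⟨h1, h2, h3, h5, h6, h8, h9⟩ := h.dvd hd
  refine ⟨⟨by rw [one_mul], h8, by omega, h.nd3 h1, h.nd7 h1, Or.inl ⟨rfl, h4⟩⟩,
    ⟨h5, h9, fun h' => h.h2 (h'.trans (Nat.div_dvd_of_dvd hd)),
      h.nd3 (Nat.div_dvd_of_dvd h1), h.nd7 (Nat.div_dvd_of_dvd h1), ?_⟩⟩
  rcases h.hr with h' | h' | h'
  · exact absurd h'.1 hc
  · refine Or.inr (Or.inl ⟨h'.1, ?_⟩)
    have hm := mod_div (q := 4) hd
    have h10 := h'.2
    have h11 : ¬ 2 ∣ A := h.h2
    have e : A / d % 4 = 3 := by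
      rcases rt_val t with h12 | h12
      · rw [h4, h12] at hm
        omega
      · rw [h4, h12] at hm
        omega
    rw [e]; rfl
  · exact Or.inr (Or.inr h')

theorem XT.PQ (h : XT t c A x) : PQ A.primeFactors := by
  intro p hp
  have h1 := Nat.prime_of_mem_primeFactors hp
  have h4 := Nat.dvd_of_mem_primeFactors hp
  have h6 := (h.dvd h4).1
  refine ⟨h1, ?_, ?_, ?_⟩
  · rintro rfl; exact h.h2 h4
  · rintro rfl; exact h.h3 h6
  · rintro rfl; exact h.h7 h6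

theorem XT.val (h : XT t c A x) {l : ℕ} (hl : l ∈ A.primeFactors) : x.factorization l = 1 := by
  have hp := Nat.prime_of_mem_primeFactors hl
  have hd := Nat.dvd_of_mem_primeFactors hl
  have hc : ¬ l ∣ c := by
    intro h'
    have := Nat.Coprime.eq_one_of_dvd (h.cop hd) h'
    exact hp.one_lt.ne' this
  have hc0 : c ≠ 0 := by rcases h.cc3 with rfl | rfl | rfl <;> norm_num
  rw [h.hx]
  refine val_mul hc hc0 h.hs.ne_zero ?_
  have h1 : 1 ≤ A.factorization l := (hp.dvd_iff_one_le_factorization h.hs.ne_zero).1 hd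
  have h2 : A.factorization l ≤ 1 := h.hs.natFactorization_le_one l
  omega

theorem XT.cardA (h : XT t c A x) (hc : c ≠ 1) :
    x.primeFactors.card = A.primeFactors.card + 1 := by
  have hcc : c.primeFactors = {2} := by
    rcases h.cc3 with rfl | rfl | rfl
    · exact absurd rfl hc
    · rw [show (4 : ℕ) = 2 ^ 2 by norm_num, Nat.primeFactors_prime_pow (by norm_num) Nat.prime_two]
    · rw [show (8 : ℕ) = 2 ^ 3 by norm_num, Nat.primeFactors_prime_pow (by norm_num) Nat.prime_two]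
  have hc0 : c ≠ 0 := by rcases h.cc3 with rfl | rfl | rfl <;> norm_num
  rw [h.hx, card_cop (h.cop dvd_rfl).symm hc0 h.hs.ne_zero, hcc, card_singleton, add_comm]

theorem XT.nsq (h : XT t c A x) (hx1 : x ≠ 1) : (t = 7) → ∀ b : ℤ, b ^ 2 ≠ (x : ℤ) := by
  rintro rfl b hb
  have hx : b.natAbs * b.natAbs = x := by
    have : ((b.natAbs * b.natAbs : ℕ) : ℤ) = x := by
      push_cast
      rw [← hb, ← sq, sq_abs]
    exact_mod_cast this
  rcases h.hr with h' | h' | h'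
  · have h1 := h.hx
    rw [h'.1, one_mul] at h1
    have h2 := Nat.isUnit_iff.1 (h.hs b.natAbs (by rw [hx, h1]))
    rw [h2] at hx
    exact hx1 hx.symm
  · -- `x = 4 A`, `A % 4 = 3`
    have h1 := h.hx
    rw [h'.1] at h1
    have h3 : A % 4 = 3 := by
      have := h'.2
      rw [show rt 7 = 1 from rfl] at this
      omega
    have h4 : 2 ∣ b.natAbs := by
      have : 2 ∣ b.natAbs * b.natAbs := by rw [hx, h1]; exact ⟨2 * A, by ring⟩
      rcases (Nat.Prime.dvd_mul Nat.prime_two).1 this with h | h <;> exact h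
    obtain ⟨y, hy⟩ := h4
    rw [hy, h1] at hx
    have h5 : y * y = A := by
      have : 4 * (y * y) = 4 * A := by rw [← hx]; ring
      omega
    have h6 : y % 4 = 0 ∨ y % 4 = 1 ∨ y % 4 = 2 ∨ y % 4 = 3 := by omega
    have h7 : y * y % 4 = 3 := by rw [h5]; exact h3
    rw [Nat.mul_mod] at h7
    rcases h6 with h6 | h6 | h6 | h6 <;> rw [h6] at h7 <;> omega
  · have h1 := h.hx
    rw [h'] at h1
    have h3 : A % 2 = 1 := by have := h.h2; omega
    have h4 : 2 ∣ b.natAbs := by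
      have : 2 ∣ b.natAbs * b.natAbs := by rw [hx, h1]; exact ⟨4 * A, by ring⟩
      rcases (Nat.Prime.dvd_mul Nat.prime_two).1 this with h | h <;> exact h
    obtain ⟨y, hy⟩ := h4
    rw [hy, h1] at hx
    have h5 : y * y = 2 * A := by
      have : 4 * (y * y) = 4 * (2 * A) := by rw [show 4 * (y * y) = 2 * y * (2 * y) by ring, hx]; ring
      omega
    have h6 : y % 4 = 0 ∨ y % 4 = 1 ∨ y % 4 = 2 ∨ y % 4 = 3 := by omega
    have h7 : y * y % 4 = 2 := by rw [h5]; omega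
    rw [Nat.mul_mod] at h7
    rcases h6 with h6 | h6 | h6 | h6 <;> rw [h6] at h7 <;> omega

end XT

/-- the weight of the class -/
def wt (t : ℕ) : ℕ := if t = 7 ∨ t = 21 then 2 else 1

/-- the constant of the relation -/
def kp (t : ℕ) : ℤ := if t = 7 ∨ t = 21 then 24 else 12

/-- the congruence -/
def GG (t x : ℕ) : Prop := ∃ g z : ℤ,
  rr (t * x : ℕ) = 2 ^ (x.primeFactors.card + wt t) * g ∧
    cc (t * x : ℕ) = rr (t * x : ℕ) + 2 ^ (x.primeFactors.card + wt t + 1) * z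

theorem gg_zero {t x : ℕ} (h : (t * x) % 3 = 2) : GG t x :=
  ⟨0, 0, by rw [rr_zero h, mul_zero], by rw [rr_zero h, cc_zero h, mul_zero, add_zero]⟩

theorem two_cong {R1 C1 R2 C2 g1 z1 g2 z2 : ℤ} {u v s : ℕ} (r1 : R1 = 2 ^ u * g1)
    (s1 : C1 = R1 + 2 ^ (u + 1) * z1) (r2 : R2 = 2 ^ v * g2) (s2 : C2 = R2 + 2 ^ (v + 1) * z2)
    (hs : s = u + v + 1) : (2 : ℤ) ^ s ∣ 3 * R1 * R2 + C1 * C2 := by
  rw [s1, s2, r1, r2, hs]
  refine ⟨2 * g1 * g2 + g1 * z2 + g2 * z1 + 2 * z1 * z2, ?_⟩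
  ring

theorem nd49 {x : ℕ} (h : ¬ 7 ∣ x) : ¬ 49 ∣ 7 * x := by omega

theorem nd49' {x : ℕ} (h : ¬ 7 ∣ x) : ¬ 49 ∣ 21 * x := by omega

/-- the relation for a pair -/
theorem rel {t x y : ℕ} (ht : T21 t) (hx : ¬ 7 ∣ x) (hy : ¬ 7 ∣ y) (h : 7 ∣ t ∨ Sp7 (t * y)) :
    kp t * (cp0 (7 * x : ℕ) (t * y : ℕ) : ℤ) =
      3 * rr (7 * x : ℕ) * rr (t * y : ℕ) + cc (7 * x : ℕ) * cc (t * y : ℕ) := by
  rcases ht with rfl | rfl | rfl | rfl
  · have h' := h.resolve_left (by norm_num)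
    exact s_REL75 (7 * x) (1 * y) ⟨x, rfl⟩ (nd49 hx) h'
  · have h' := h.resolve_left (by norm_num)
    exact s_REL75 (7 * x) (3 * y) ⟨x, rfl⟩ (nd49 hx) h'
  · exact s_REL77 (7 * x) (7 * y) ⟨x, rfl⟩ (nd49 hx) ⟨y, rfl⟩ (nd49 hy)
  · exact s_REL77 (7 * x) (21 * y) ⟨x, rfl⟩ (nd49 hx) ⟨3 * y, by ring⟩ (nd49' hy)

/-- a term of the sum -/
theorem term {t x y s : ℕ} (ht : T21 t) (hx : ¬ 7 ∣ x) (hy : ¬ 7 ∣ y) (h1 : GG 7 x)
    (h2 : (7 ∣ t ∨ Sp7 (t * y)) → GG t y)
    (hs : s = x.primeFactors.card + y.primeFactors.card + wt t + 3) :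
    (2 : ℤ) ^ s ∣ kp t * (cp0 (7 * x : ℕ) (t * y : ℕ) : ℤ) := by
  by_cases h : 7 ∣ t ∨ Sp7 (t * y)
  · obtain ⟨g1, z1, r1, s1⟩ := h1
    obtain ⟨g2, z2, r2, s2⟩ := h2 h
    rw [rel ht hx hy h]
    refine two_cong r1 s1 r2 s2 ?_
    rw [show wt 7 = 2 from rfl, hs]
    ring
  · have h7 : ¬ 7 ∣ t * y := by
      intro h'
      rcases (Nat.Prime.dvd_mul (by norm_num : Nat.Prime 7)).1 h' with h' | h'
      · exact h (Or.inl h')
      · exact hy h'
    have h8 : (t * y) % 7 = 1 ∨ (t * y) % 7 = 2 ∨ (t * y) % 7 = 4 := by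
      have : ¬ Sp7 (t * y) := fun h' => h (Or.inr h')
      unfold Sp7 at this
      omega
    rw [s_REL71 (7 * x) (t * y) ⟨x, rfl⟩ (nd49 hx) h8]
    simp

/-- the first term of the sum -/
theorem first {t x : ℕ} (ht : T21 t) (hx : ¬ 7 ∣ x) (h : 7 ∣ t ∨ Sp7 (t * x)) :
    kp t * (cp0 (7 * 1 : ℕ) (t * x : ℕ) : ℤ) = 12 * (3 * rr (t * x : ℕ) + cc (t * x : ℕ)) := by
  rw [rel ht (by norm_num) hx h]
  have : ((7 * 1 : ℕ) : ℤ) = 7 := by norm_num
  rw [this, rr_seven, cc_seven]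
  ring

theorem fin {R C g : ℤ} {E : ℕ} (hR : R = 2 ^ E * g) (h : (2 : ℤ) ^ (E + 3) ∣ 12 * (3 * R + C)) :
    ∃ z : ℤ, C = R + 2 ^ (E + 1) * z := by
  have h1 : (2 : ℤ) ^ (E + 1) ∣ 3 * (3 * R + C) := by
    have e : (2 : ℤ) ^ (E + 3) = 4 * 2 ^ (E + 1) := by ring
    have e' : 12 * (3 * R + C) = 4 * (3 * (3 * R + C)) := by ring
    rw [e, e'] at h
    exact (mul_dvd_mul_iff_left (by norm_num : (4 : ℤ) ≠ 0)).1 h
  obtain ⟨w, hw⟩ := odd_dvd_cancel h1
  refine ⟨w - 2 * g, ?_⟩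
  have e : (2 : ℤ) ^ (E + 1) * (w - 2 * g) = 2 ^ (E + 1) * w - 4 * (2 ^ E * g) := by ring
  rw [e, ← hw, ← hR]
  ring

/-- the number of primes -/
theorem card_t {t x : ℕ} (ht : T21 t) (hx : x ≠ 0) (h3 : ¬ 3 ∣ x) (h7 : ¬ 7 ∣ x) :
    (t * x).primeFactors.card + (if t = 1 ∨ t = 7 then 1 else 0) = x.primeFactors.card + wt t := by
  have p7 : Nat.Prime 7 := by norm_num
  rcases ht with rfl | rfl | rfl | rfl
  · rw [one_mul]; rfl
  · rw [card_cop ((Nat.Prime.coprime_iff_not_dvd Nat.prime_three).2 h3) (by norm_num) hx,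
      Nat.Prime.primeFactors Nat.prime_three, Finset.card_singleton]
    rw [if_neg (by norm_num)]
    unfold wt
    rw [if_neg (by norm_num)]
    ring
  · rw [card_cop ((Nat.Prime.coprime_iff_not_dvd p7).2 h7) (by norm_num) hx,
      Nat.Prime.primeFactors p7, Finset.card_singleton]
    rw [if_pos (by norm_num)]
    unfold wt
    rw [if_pos (by norm_num)]
    ring
  · have h7' : ¬ 7 ∣ 3 * x := by omega
    rw [show 21 * x = 7 * (3 * x) by ring,
      card_cop ((Nat.Prime.coprime_iff_not_dvd p7).2 h7') (by norm_num) (by omega),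
      Nat.Prime.primeFactors p7, Finset.card_singleton,
      card_cop ((Nat.Prime.coprime_iff_not_dvd Nat.prime_three).2 h3) (by norm_num) hx,
      Nat.Prime.primeFactors Nat.prime_three, Finset.card_singleton]
    rw [if_neg (by norm_num)]
    unfold wt
    rw [if_pos (by norm_num)]
    ring

theorem sqf_t {t A d : ℕ} (ht : T21 t) (hA : Squarefree A) (h3 : ¬ 3 ∣ A) (h7 : ¬ 7 ∣ A)
    (hd : d ∣ A) : Squarefree (t * d) := by
  have hd' := hA.squarefree_of_dvd hd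
  have p7 : Nat.Prime 7 := by norm_num
  have c3 : Nat.Coprime 3 d :=
    (Nat.Prime.coprime_iff_not_dvd Nat.prime_three).2 fun h => h3 (h.trans hd)
  have c7 : Nat.Coprime 7 d :=
    (Nat.Prime.coprime_iff_not_dvd p7).2 fun h => h7 (h.trans hd)
  rw [Nat.squarefree_mul_iff]
  have s21 : Squarefree 21 := by
    rw [show (21 : ℕ) = 3 * 7 by norm_num, Nat.squarefree_mul_iff]
    exact ⟨by norm_num, Nat.prime_three.squarefree, p7.squarefree⟩
  rcases ht with rfl | rfl | rfl | rfl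
  · exact ⟨Nat.coprime_one_left d, squarefree_one, hd'⟩
  · exact ⟨c3, Nat.prime_three.squarefree, hd'⟩
  · exact ⟨c7, p7.squarefree, hd'⟩
  · exact ⟨(show (21 : ℕ) = 3 * 7 by norm_num) ▸ Nat.Coprime.mul_left c3 c7, s21, hd'⟩

theorem XT.A3 {t c A x : ℕ} (h : XT t c A x) : ¬ 3 ∣ A := h.nd3 h.Ax

theorem XT.A7 {t c A x : ℕ} (h : XT t c A x) : ¬ 7 ∣ A := h.nd7 h.Ax

/-- the odd discriminants -/
theorem XT.odd_n {t A x : ℕ} (ht : T21 t) (h : XT t 1 A x) :
    Squarefree (t * x) ∧ (t * x) % 4 = 3 := by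
  have h1 := h.hx
  rw [one_mul] at h1
  subst h1
  refine ⟨sqf_t ht h.hs h.A3 h.A7 dvd_rfl, x_mod4 ht ?_⟩
  rcases h.hr with h' | h' | h'
  · exact h'.2
  · exact absurd h'.1 (by norm_num)
  · exact absurd h' (by norm_num)

/-- the even discriminants -/
theorem XT.ev_n {t c A x : ℕ} (ht : T21 t) (h : XT t c A x) (hc : c ≠ 1) : Ev (t * x) := by
  have hs := sqf_t ht h.hs h.A3 h.A7 dvd_rfl
  rcases h.hr with h' | h' | h'
  · exact absurd h'.1 hc
  · refine ⟨t * A, by rw [h.hx, h'.1]; ring, hs, Or.inl ?_⟩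
    have h1 := h'.2
    rcases ht with rfl | rfl | rfl | rfl
    · rw [show rt 1 = 3 from rfl] at h1; omega
    · rw [show rt 3 = 1 from rfl] at h1; omega
    · rw [show rt 7 = 1 from rfl] at h1; omega
    · rw [show rt 21 = 3 from rfl] at h1; omega
  · refine ⟨2 * (t * A), by rw [h.hx, h']; ring, ?_, Or.inr ?_⟩
    · rw [Nat.squarefree_mul_iff]
      refine ⟨?_, Nat.prime_two.squarefree, hs⟩
      rw [Nat.Prime.coprime_iff_not_dvd Nat.prime_two]
      intro h2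
      rcases (Nat.Prime.dvd_mul Nat.prime_two).1 h2 with h2 | h2
      · rcases ht with rfl | rfl | rfl | rfl <;> omega
      · exact h.h2 h2
    · have h2 : ¬ 2 ∣ t * A := by
        intro h2
        rcases (Nat.Prime.dvd_mul Nat.prime_two).1 h2 with h2 | h2
        · rcases ht with rfl | rfl | rfl | rfl <;> omega
        · exact h.h2 h2
      omega

/-- the divisibility of the number of vectors -/
theorem rdiv (hR : S_R) (hRE : S_RE) (hR3 : S_R3) (hR3E : S_R3E) {t c A x : ℕ} (ht : T21 t)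
    (h : XT t c A x) (h3 : t = 3 ∨ t = 21 ∨ (t * x) % 3 = 1) (h4 : t * x ≠ 4) :
    ∃ g : ℤ, rr (t * x : ℕ) = 2 ^ (x.primeFactors.card + wt t) * g := by
  have hc := card_t ht h.pos.ne' h.h3 h.h7
  by_cases ht3 : t = 3 ∨ t = 21
  · have h3n : 3 ∣ t * x := by
      rcases ht3 with rfl | rfl
      · exact ⟨x, rfl⟩
      · exact ⟨7 * x, by ring⟩
    rw [if_neg (by rcases ht3 with rfl | rfl <;> norm_num), add_zero] at hc
    rw [← hc]
    by_cases hc1 : c = 1
    · subst hc1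
      obtain ⟨a1, a2⟩ := h.odd_n ht
      obtain ⟨g, hg, -⟩ := hR3 (t * x) a1 a2 h3n
      exact ⟨g, hg⟩
    · obtain ⟨g, hg, -⟩ := hR3E (t * x) (h.ev_n ht hc1) h3n
      exact ⟨g, hg⟩
  · have h31 : (t * x) % 3 = 1 := by tauto
    have ht1 : t = 1 ∨ t = 7 := by
      rcases ht with rfl | rfl | rfl | rfl
      · exact Or.inl rfl
      · exact absurd (Or.inl rfl) ht3
      · exact Or.inr rfl
      · exact absurd (Or.inr rfl) ht3
    rw [if_pos ht1] at hc
    rw [← hc]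
    by_cases hc1 : c = 1
    · subst hc1
      obtain ⟨a1, a2⟩ := h.odd_n ht
      obtain ⟨g, hg, -⟩ := hR (t * x) a1 a2 h31
      exact ⟨g, hg⟩
    · have hev := h.ev_n ht hc1
      have h4' : 4 < t * x := by
        obtain ⟨m, hm, hms, -⟩ := hev
        have := hms.ne_zero
        omega
      obtain ⟨g, hg, -⟩ := hRE (t * x) hev h31 h4'
      exact ⟨g, hg⟩

/-- the involution of the divisors -/
theorem pairing {m : ℕ} (hs : Squarefree m) (h4 : m % 4 = 1) (hm1 : 1 < m) (Q : ℕ → ℤ)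
    (hQs : ∀ d, d ∣ m → Q (m / d) = Q d) :
    ∑ d ∈ m.divisors.filter (fun d => d % 4 = 1), Q d =
      2 * ∑ d ∈ (m.divisors.filter (fun d => d % 4 = 1)).filter (fun d => d * d < m), Q d := by
  have hm0 : m ≠ 0 := by omega
  set D := m.divisors.filter (fun d => d % 4 = 1) with hD
  rw [← Finset.sum_filter_add_sum_filter_not D (fun d => d * d < m), two_mul]
  congr 1
  refine Finset.sum_nbij' (fun d => m / d) (fun d => m / d) ?_ ?_ ?_ ?_ ?_
  · intro d hd
    rw [Finset.mem_filter, hD, Finset.mem_filter, Nat.mem_divisors] at hd ⊢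
    obtain ⟨⟨⟨hdm, -⟩, hd4⟩, hdd⟩ := hd
    refine ⟨⟨⟨Nat.div_dvd_of_dvd hdm, hm0⟩, ?_⟩, ?_⟩
    · have hmd := mod_div (q := 4) hdm
      rw [hd4, h4] at hmd
      omega
    · have e3 : d * (m / d) = m := Nat.mul_div_cancel' hdm
      have hne : d ≠ m / d := by
        intro h
        rw [← h] at e3
        have := Nat.isUnit_iff.1 (hs d ⟨1, by rw [mul_one]; exact e3.symm⟩)
        rw [this] at e3
        omega
      have hd0 : 0 < d := Nat.pos_of_dvd_of_pos hdm (by omega)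
      have hlt : m / d < d := by
        by_contra hcon
        have : d < m / d := by omega
        apply hdd
        calc d * d < d * (m / d) := Nat.mul_lt_mul_of_pos_left this hd0
          _ = m := e3
      have hpos : 0 < m / d := Nat.div_pos (Nat.le_of_dvd (by omega) hdm) hd0
      calc (m / d) * (m / d) < d * (m / d) := Nat.mul_lt_mul_of_pos_right hlt hpos
        _ = m := e3
  · intro d hd
    rw [Finset.mem_filter, hD, Finset.mem_filter, Nat.mem_divisors] at hd ⊢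
    obtain ⟨⟨⟨hdm, -⟩, hd4⟩, hdd⟩ := hd
    refine ⟨⟨⟨Nat.div_dvd_of_dvd hdm, hm0⟩, ?_⟩, ?_⟩
    · have hmd := mod_div (q := 4) hdm
      rw [hd4, h4] at hmd
      omega
    · have e3 : d * (m / d) = m := Nat.mul_div_cancel' hdm
      have hd0 : 0 < d := Nat.pos_of_dvd_of_pos hdm (by omega)
      intro hcon
      have hlt : d < m / d := by
        by_contra h
        have : m / d ≤ d := by omega
        have : m ≤ d * d := by
          calc m = d * (m / d) := e3.symm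
            _ ≤ d * d := Nat.mul_le_mul_left _ this
        omega
      have : m < (m / d) * (m / d) := by
        calc m = d * (m / d) := e3.symm
          _ < (m / d) * (m / d) := Nat.mul_lt_mul_of_pos_right hlt (by omega)
      omega
  · intro d hd
    rw [Finset.mem_filter, hD, Finset.mem_filter, Nat.mem_divisors] at hd
    exact Nat.div_div_self hd.1.1.1 hm0
  · intro d hd
    rw [Finset.mem_filter, hD, Finset.mem_filter, Nat.mem_divisors] at hd
    exact Nat.div_div_self hd.1.1.1 hm0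
  · intro d hd
    rw [Finset.mem_filter, hD, Finset.mem_filter, Nat.mem_divisors] at hd
    exact (hQs d hd.1.1.1).symm

/-- the congruence for `7 x` -/
theorem ind7 (hPC : S_PC) (hPC3 : S_PC3') (hR55 : S_REL55) (hC : S_CP7) (hR : S_R) (hRE : S_RE)
    (hR3 : S_R3) (hR3E : S_R3E) : ∀ x c A : ℕ, XT 7 c A x → GG 7 x := by
  intro x
  induction x using Nat.strong_induction_on with
  | _ x ih =>
  intro c A h
  have t7 : T21 7 := Or.inr (Or.inr (Or.inl rfl))
  have hx0 := h.pos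
  have h3x := h.h3
  by_cases hx3 : (7 * x) % 3 = 1
  swap
  · exact gg_zero (by omega)
  by_cases hx1 : x = 1
  · subst hx1
    refine ⟨3, 0, ?_, ?_⟩
    · have : ((7 * 1 : ℕ) : ℤ) = 7 := by norm_num
      rw [this, rr_seven]
      simp [wt]
    · have : ((7 * 1 : ℕ) : ℤ) = 7 := by norm_num
      rw [this, rr_seven, cc_seven]
      simp
  obtain ⟨g, hg⟩ := rdiv hR hRE hR3 hR3E t7 h (Or.inr (Or.inr hx3)) (by omega)
  suffices hs : (2 : ℤ) ^ (x.primeFactors.card + wt 7 + 3) ∣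
      12 * (3 * rr (7 * x : ℕ) + cc (7 * x : ℕ)) by
    obtain ⟨z, hz⟩ := fin hg hs
    exact ⟨g, z, hg, hz⟩
  rw [← first t7 h.h7 (Or.inl dvd_rfl), show kp 7 = 24 from rfl]
  have hsum := core77 hPC hPC3 hR55 hC h.PQ (m := x) hx0.ne' (by omega) h.h7 (h.nsq hx1 rfl)
    (fun l hl => h.val hl)
    (fun S hS => ⟨sqf_t t7 h.hs h.A3 h.A7 (pr_dvd hS), (h.dvd (pr_dvd hS)).1⟩)
  have hsum' : (2 : ℤ) ^ (A.primeFactors.card + 3) ∣
      ∑ d ∈ A.divisors.filter (fun d => d % 4 = 1), (cp0 (7 * d : ℕ) (7 * (x / d) : ℕ) : ℤ) := by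
    rw [sum_div_filter h.hs (fun d => d % 4 = 1)]
    refine hsum.trans (dvd_of_eq (Finset.sum_congr rfl fun S hS => ?_))
    obtain ⟨a1, -⟩ := Finset.mem_filter.1 hS
    have b1 := Finset.mem_powerset.1 a1
    have h1 := h.dvd (pr_dvd b1)
    rw [quo_eq (t := 7) (u := 7) (m := x) (by ring) h1.1 (by omega)]
  have hQd : ∀ d, d ∣ A → d % 4 = 1 → 1 < d → d < x →
      (2 : ℤ) ^ (x.primeFactors.card + wt 7 + 3) ∣
        24 * (cp0 (7 * d : ℕ) (7 * (x / d) : ℕ) : ℤ) := by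
    intro d hd h4 hd1 hdx
    obtain ⟨f1, f2⟩ := h.fam1 hd h4
    have hdx' := (h.dvd hd).1
    have := term t7 (h.nd7 hdx') (h.nd7 (Nat.div_dvd_of_dvd hdx')) (ih d hdx 1 d f1)
      (fun _ => ih (x / d) (Nat.div_lt_self hx0 hd1) c (A / d) f2) rfl
    rw [show kp 7 = 24 from rfl, ← h.split hd] at this
    exact this
  have h1A : 1 ∈ A.divisors.filter (fun d => d % 4 = 1) := by
    rw [Finset.mem_filter, Nat.mem_divisors]
    exact ⟨⟨one_dvd A, h.hs.ne_zero⟩, by norm_num⟩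
  obtain ⟨w, hw⟩ := hsum'
  by_cases hc : c = 1
  · have hxA : x = A := by rw [h.hx, hc, one_mul]
    subst hxA
    have h4 : x % 4 = 1 := by
      rcases h.hr with h' | h' | h'
      · exact h'.2
      · omega
      · omega
    have hp := pairing h.hs h4 (by omega)
      (fun d => 24 * (cp0 (7 * d : ℕ) (7 * (x / d) : ℕ) : ℤ)) (by
        intro d hd
        rw [Nat.div_div_self hd hx0.ne', cp0_comm])
    rw [← Finset.mul_sum, hw] at hp
    have h1D : 1 ∈ (x.divisors.filter (fun d => d % 4 = 1)).filter (fun d => d * d < x) := by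
      rw [Finset.mem_filter]
      exact ⟨h1A, by omega⟩
    have e3 : (2 : ℤ) ^ (x.primeFactors.card + wt 7 + 3) ∣
        ∑ d ∈ ((x.divisors.filter (fun d => d % 4 = 1)).filter (fun d => d * d < x)).erase 1,
          24 * (cp0 (7 * d : ℕ) (7 * (x / d) : ℕ) : ℤ) := by
      refine Finset.dvd_sum fun d hd => ?_
      rw [Finset.mem_erase, Finset.mem_filter, Finset.mem_filter, Nat.mem_divisors] at hd
      obtain ⟨hd1, ⟨⟨hdm, -⟩, hd4⟩, hdd⟩ := hd
      exact hQd d hdm hd4 (by omega) (by nlinarith)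
    obtain ⟨w', hw'⟩ := e3
    rw [← Finset.add_sum_erase _ _ h1D, hw', Nat.div_one] at hp
    refine ⟨3 * w - w', ?_⟩
    have e4 : (2 : ℤ) ^ (x.primeFactors.card + wt 7 + 3) = 4 * 2 ^ (x.primeFactors.card + 3) := by
      rw [show wt 7 = 2 from rfl]; ring
    rw [e4] at hp ⊢
    linarith
  · have e3 : (2 : ℤ) ^ (x.primeFactors.card + wt 7 + 3) ∣
        ∑ d ∈ (A.divisors.filter (fun d => d % 4 = 1)).erase 1,
          24 * (cp0 (7 * d : ℕ) (7 * (x / d) : ℕ) : ℤ) := by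
      refine Finset.dvd_sum fun d hd => ?_
      rw [Finset.mem_erase, Finset.mem_filter, Nat.mem_divisors] at hd
      obtain ⟨hd1, ⟨hdm, -⟩, hd4⟩ := hd
      refine hQd d hdm hd4 (by omega) ?_
      have h1 := Nat.le_of_dvd h.Apos hdm
      have h2 := h.hx
      have h3 := h.Apos
      rcases h.cc3 with h' | h' | h'
      · exact absurd h' hc
      · rw [h'] at h2; omega
      · rw [h'] at h2; omega
    obtain ⟨w', hw'⟩ := e3
    have e5 : 24 * ∑ d ∈ A.divisors.filter (fun d => d % 4 = 1),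
        (cp0 (7 * d : ℕ) (7 * (x / d) : ℕ) : ℤ) =
        ∑ d ∈ A.divisors.filter (fun d => d % 4 = 1),
        24 * (cp0 (7 * d : ℕ) (7 * (x / d) : ℕ) : ℤ) := by rw [Finset.mul_sum]
    rw [hw, ← Finset.add_sum_erase _ _ h1A, hw', Nat.div_one] at e5
    refine ⟨3 * w - w', ?_⟩
    have e4 : (2 : ℤ) ^ (x.primeFactors.card + wt 7 + 3) = 8 * 2 ^ (A.primeFactors.card + 3) := by
      rw [h.cardA hc, show wt 7 = 2 from rfl]; ring
    rw [e4] at e5 ⊢
    linarith

/-- the congruence for `x`, `3 x`, `21 x` -/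
theorem indT (hPC : S_PC) (hPC3 : S_PC3') (hR55 : S_REL55) (hC : S_CP7) (hR : S_R) (hRE : S_RE)
    (hR3 : S_R3) (hR3E : S_R3E) {t : ℕ} (ht' : t = 1 ∨ t = 3 ∨ t = 21) :
    ∀ x c A : ℕ, XT t c A x → (7 ∣ t ∨ Sp7 (t * x)) → GG t x := by
  intro x
  induction x using Nat.strong_induction_on with
  | _ x ih =>
  intro c A h hSp
  have t7 : T21 7 := Or.inr (Or.inr (Or.inl rfl))
  have ht : T21 t := by
    rcases ht' with rfl | rfl | rfl
    · exact Or.inl rfl
    · exact Or.inr (Or.inl rfl)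
    · exact Or.inr (Or.inr (Or.inr rfl))
  have hx0 := h.pos
  have h3x := h.h3
  have h7x := h.h7
  by_cases hx3 : t = 3 ∨ t = 21 ∨ (t * x) % 3 = 1
  swap
  · refine gg_zero ?_
    have ht1 : t = 1 := by tauto
    rw [ht1] at hx3 ⊢
    omega
  have hn4 : t * x ≠ 4 := by
    intro h'
    rcases hSp with h1 | h1
    · have := h1.trans (Dvd.intro x rfl : t ∣ t * x)
      rw [h'] at this
      omega
    · rw [h'] at h1
      unfold Sp7 at h1
      omega
  obtain ⟨g, hg⟩ := rdiv hR hRE hR3 hR3E ht h hx3 hn4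
  suffices hs : (2 : ℤ) ^ (x.primeFactors.card + wt t + 3) ∣
      12 * (3 * rr (t * x : ℕ) + cc (t * x : ℕ)) by
    obtain ⟨z, hz⟩ := fin hg hs
    exact ⟨g, z, hg, hz⟩
  rw [← first ht h.h7 hSp]
  have i7 := ind7 hPC hPC3 hR55 hC hR hRE hR3 hR3E
  -- the terms
  have hQd : ∀ d, d ∣ A → d % 4 = 1 → 1 < d →
      (2 : ℤ) ^ (x.primeFactors.card + wt t + 3) ∣
        kp t * (cp0 (7 * d : ℕ) (t * (x / d) : ℕ) : ℤ) := by
    intro d hd h4 hd1
    obtain ⟨f1, f2⟩ := h.fam1 hd h4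
    have hdx' := (h.dvd hd).1
    have := term ht (h.nd7 hdx') (h.nd7 (Nat.div_dvd_of_dvd hdx')) (i7 d 1 d f1)
      (fun h' => ih (x / d) (Nat.div_lt_self hx0 hd1) c (A / d) f2 h') rfl
    rw [← h.split hd] at this
    exact this
  have hQe : c ≠ 1 → ∀ d, d ∣ A → d % 4 = rt t →
      (2 : ℤ) ^ (x.primeFactors.card + wt t + 3) ∣
        kp t * (cp0 (t * d : ℕ) (7 * (x / d) : ℕ) : ℤ) := by
    intro hc d hd h4
    obtain ⟨f1, f2⟩ := h.fam2 hc hd h4
    have hdx' := (h.dvd hd).1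
    have hlt : d < x := by
      have h1 := Nat.le_of_dvd h.Apos hd
      have h2 := h.hx
      have h3 := h.Apos
      rcases h.cc3 with h' | h' | h'
      · exact absurd h' hc
      · rw [h'] at h2; omega
      · rw [h'] at h2; omega
    have := term ht (h.nd7 (Nat.div_dvd_of_dvd hdx')) (h.nd7 hdx') (i7 (x / d) c (A / d) f2)
      (fun h' => ih d hlt 1 d f1 h') rfl
    rw [add_comm (x / d).primeFactors.card, ← h.split hd] at this
    rw [cp0_comm]
    exact this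
  -- the sum
  have hN0 : 7 * t * x ≠ 0 := by
    have : 0 < t := by rcases ht' with rfl | rfl | rfl <;> norm_num
    positivity
  have h7N : 7 ∣ 7 * t * x := ⟨t * x, by ring⟩
  have hsq : ∀ b : ℤ, (7 * b) ^ 2 ≠ ((7 * t * x : ℕ) : ℤ) := by
    intro b hb
    push_cast at hb
    rcases ht' with rfl | rfl | rfl
    · have h1 : 7 * b ^ 2 = (x : ℤ) := by push_cast at hb; linarith
      have h2 : (7 : ℤ) ∣ (x : ℤ) := ⟨b ^ 2, h1.symm⟩
      exact h7x (by exact_mod_cast h2)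
    · have h1 : 7 * b ^ 2 = 3 * (x : ℤ) := by push_cast at hb; linarith
      have h2 : (7 : ℤ) ∣ 3 * (x : ℤ) := ⟨b ^ 2, h1.symm⟩
      have h3 : (7 : ℤ) ∣ (x : ℤ) := by omega
      exact h7x (by exact_mod_cast h3)
    · have h1 : b ^ 2 = 3 * (x : ℤ) := by push_cast at hb; linarith
      have h2 : (3 : ℤ) ∣ b := Int.prime_three.dvd_of_dvd_pow (⟨x, h1⟩ : (3 : ℤ) ∣ b ^ 2)
      obtain ⟨y, rfl⟩ := h2
      have h3 : 3 * y ^ 2 = (x : ℤ) := by linarith
      have h4 : (3 : ℤ) ∣ (x : ℤ) := ⟨y ^ 2, h3.symm⟩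
      exact h3x (by exact_mod_cast h4)
  have hPQ := h.PQ
  have hv : ∀ l ∈ A.primeFactors, (7 * t * x).factorization l = 1 := by
    intro l hl
    obtain ⟨hlp, l2, l3, l7⟩ := hPQ l hl
    have h1 : ¬ l ∣ 7 * t := by
      intro h'
      rcases (Nat.Prime.dvd_mul hlp).1 h' with h' | h'
      · exact l7 ((Nat.prime_dvd_prime_iff_eq hlp (by norm_num)).1 h')
      · exact ht.cop hlp l3 l7 h'
    have h2 : 7 * t ≠ 0 := by
      intro h'; rw [h', zero_mul] at hN0; exact hN0 rfl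
    exact val_mul h1 h2 hx0.ne' (h.val hl)
  have hdv : ∀ S ⊆ A.primeFactors, pr S ∣ x := fun S hS => (h.dvd (pr_dvd hS)).1
  have hd7 : ∀ S ⊆ A.primeFactors, Squarefree (7 * pr S) ∧ 7 * pr S ∣ 7 * t * x := fun S hS =>
    ⟨sqf_t t7 h.hs h.A3 h.A7 (pr_dvd hS), (mul_dvd_mul_left 7 (hdv S hS)).trans ⟨t, by ring⟩⟩
  have hdt : ∀ S ⊆ A.primeFactors, Squarefree (t * pr S) ∧ t * pr S ∣ 7 * t * x := fun S hS =>
    ⟨sqf_t ht h.hs h.A3 h.A7 (pr_dvd hS), (mul_dvd_mul_left t (hdv S hS)).trans ⟨7, by ring⟩⟩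
  have hkp : kp t = 3 * 2 ^ (wt t + 1) := by
    rcases ht' with rfl | rfl | rfl <;> norm_num [kp, wt]
  have h1A : 1 ∈ A.divisors.filter (fun d => d % 4 = 1) := by
    rw [Finset.mem_filter, Nat.mem_divisors]
    exact ⟨⟨one_dvd A, h.hs.ne_zero⟩, by norm_num⟩
  have e3 : (2 : ℤ) ^ (x.primeFactors.card + wt t + 3) ∣
      ∑ d ∈ (A.divisors.filter (fun d => d % 4 = 1)).erase 1,
        kp t * (cp0 (7 * d : ℕ) (t * (x / d) : ℕ) : ℤ) := by
    refine Finset.dvd_sum fun d hd => ?_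
    rw [Finset.mem_erase, Finset.mem_filter, Nat.mem_divisors] at hd
    obtain ⟨hd1, ⟨hdm, -⟩, hd4⟩ := hd
    exact hQd d hdm hd4 (by omega)
  obtain ⟨w', hw'⟩ := e3
  have e5 : kp t * ∑ d ∈ A.divisors.filter (fun d => d % 4 = 1),
      (cp0 (7 * d : ℕ) (t * (x / d) : ℕ) : ℤ) =
      ∑ d ∈ A.divisors.filter (fun d => d % 4 = 1),
      kp t * (cp0 (7 * d : ℕ) (t * (x / d) : ℕ) : ℤ) := by rw [Finset.mul_sum]
  have e8 := Finset.add_sum_erase (A.divisors.filter (fun d => d % 4 = 1))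
    (fun d => kp t * (cp0 (7 * d : ℕ) (t * (x / d) : ℕ) : ℤ)) h1A
  rw [hw', Nat.div_one, ← e5] at e8
  have hconv : ∑ d ∈ A.divisors.filter (fun d => d % 4 = 1),
      (cp0 (7 * d : ℕ) (t * (x / d) : ℕ) : ℤ) =
      ∑ S ∈ A.primeFactors.powerset.filter (fun S => pr S % 4 = rt 7),
        (cp0 (7 * pr S : ℕ) (7 * t * x / (7 * pr S) : ℕ) : ℤ) := by
    rw [sum_div_filter h.hs (fun d => d % 4 = 1)]
    refine Finset.sum_congr rfl fun S hS => ?_
    obtain ⟨a1, -⟩ := Finset.mem_filter.1 hS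
    have b1 := Finset.mem_powerset.1 a1
    have h1 := h.dvd (pr_dvd b1)
    rw [quo_eq (t := 7) (u := t) (m := x) (by ring) h1.1 (by omega)]
  by_cases hc : c = 1
  · have hsum := tot1 hPC hPC3 hPQ (N := 7 * t * x) t7 hN0 h7N hsq hv
      (fun h => by rcases h with h | h <;> omega) (Or.inl (Or.inl rfl)) hd7
    rw [← hconv] at hsum
    obtain ⟨w, hw⟩ := hsum
    rw [hw] at e8
    have hxA : x = A := by rw [h.hx, hc, one_mul]
    refine ⟨3 * w - w', ?_⟩
    have e6 : kp t * (cp0 (7 * 1 : ℕ) (t * x : ℕ) : ℤ) =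
        kp t * (2 ^ (A.primeFactors.card + 2) * w) -
          2 ^ (x.primeFactors.card + wt t + 3) * w' := by linarith
    rw [e6, hkp, ← hxA]
    ring
  · have hsum := tot2 hPC hPC3 hPQ (N := 7 * t * x) t7 ht hN0 h7N hsq hv
      (fun h => by rcases h with h | h <;> omega)
      (by
        intro h'
        rcases h' with rfl | rfl
        · rw [show 7 * 3 * x = 3 * (7 * x) by ring, Nat.factorization_mul (by norm_num) (by omega),
            Finsupp.add_apply, Nat.prime_three.factorization_self,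
            Nat.factorization_eq_zero_of_not_dvd (by omega)]
        · rw [show 7 * 21 * x = 3 * (49 * x) by ring, Nat.factorization_mul (by norm_num) (by omega),
            Finsupp.add_apply, Nat.prime_three.factorization_self,
            Nat.factorization_eq_zero_of_not_dvd (by omega)])
      (Or.inl (Or.inl rfl))
      (by
        rcases ht' with rfl | rfl | rfl
        · right; omega
        · right; omega
        · exact Or.inl (Or.inr rfl))
      hd7 hdt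
    have hconv' : ∑ d ∈ A.divisors.filter (fun d => d % 4 = rt t),
        (cp0 (t * d : ℕ) (7 * (x / d) : ℕ) : ℤ) =
        ∑ S ∈ A.primeFactors.powerset.filter (fun S => pr S % 4 = rt t),
          (cp0 (t * pr S : ℕ) (7 * t * x / (t * pr S) : ℕ) : ℤ) := by
      rw [sum_div_filter h.hs (fun d => d % 4 = rt t)]
      refine Finset.sum_congr rfl fun S hS => ?_
      obtain ⟨a1, -⟩ := Finset.mem_filter.1 hS
      have b1 := Finset.mem_powerset.1 a1
      have h1 := h.dvd (pr_dvd b1)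
      have ht0 : 0 < t := by rcases ht' with rfl | rfl | rfl <;> norm_num
      rw [quo_eq (t := t) (u := 7) (m := x) (by ring) h1.1 (Nat.mul_pos ht0 h1.2.2.1)]
    rw [← hconv, ← hconv'] at hsum
    have e7 : (2 : ℤ) ^ (x.primeFactors.card + wt t + 3) ∣
        ∑ d ∈ A.divisors.filter (fun d => d % 4 = rt t),
          kp t * (cp0 (t * d : ℕ) (7 * (x / d) : ℕ) : ℤ) := by
      refine Finset.dvd_sum fun d hd => ?_
      rw [Finset.mem_filter, Nat.mem_divisors] at hd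
      exact hQe hc d hd.1.1 hd.2
    rw [← Finset.mul_sum] at e7
    obtain ⟨w, hw⟩ := hsum
    obtain ⟨v, hv'⟩ := e7
    refine ⟨3 * w - w' - v, ?_⟩
    have e6 : kp t * (cp0 (7 * 1 : ℕ) (t * x : ℕ) : ℤ) =
        kp t * (2 ^ (A.primeFactors.card + 3) * w) -
          2 ^ (x.primeFactors.card + wt t + 3) * w' -
          2 ^ (x.primeFactors.card + wt t + 3) * v := by
      rw [← hw, mul_add, hv']
      linarith
    rw [e6, hkp, h.cardA hc]
    ring

/-- the congruence in all cases -/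
theorem main (hPC : S_PC) (hPC3 : S_PC3') (hR55 : S_REL55) (hC : S_CP7) (hR : S_R) (hRE : S_RE)
    (hR3 : S_R3) (hR3E : S_R3E) {t x c A : ℕ} (ht : T21 t) (h : XT t c A x)
    (hS : 7 ∣ t ∨ Sp7 (t * x)) : GG t x := by
  rcases ht with h' | h' | h' | h'
  · exact indT hPC hPC3 hR55 hC hR hRE hR3 hR3E (Or.inl h') x c A h hS
  · exact indT hPC hPC3 hR55 hC hR hRE hR3 hR3E (Or.inr (Or.inl h')) x c A h hS
  · subst h'
    exact ind7 hPC hPC3 hR55 hC hR hRE hR3 hR3E x c A h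
  · exact indT hPC hPC3 hR55 hC hR hRE hR3 hR3E (Or.inr (Or.inr h')) x c A h hS

end Pool.Agent.N218.P21
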