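import Pool.Agent.N877.P21.Defs

/-!
# P21: the pairs with inner product divisible by seven and the Gross sums
-/

set_option autoImplicit false

namespace Pool.Agent.N218.P21

open Finset
open Pool.Agent.N969.P15 (V3)
open Pool.Agent.N877.P21

theorem ip_nonneg (v : V3) : 0 ≤ ip v v := by
  unfold ip
  nlinarith [sq_nonneg (v 1 + v 2), sq_nonneg (v 1), sq_nonneg (v 0), sq_nonneg (v 2)]

theorem sq_le_ip (v : V3) (i : Fin 3) : v i ^ 2 ≤ ip v v := by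
  unfold ip
  fin_cases i
  · change v 0 ^ 2 ≤ _
    nlinarith [sq_nonneg (v 1 + v 2), sq_nonneg (v 1), sq_nonneg (v 0), sq_nonneg (v 2)]
  · change v 1 ^ 2 ≤ _
    nlinarith [sq_nonneg (v 1 + v 2), sq_nonneg (v 1), sq_nonneg (v 0), sq_nonneg (v 2)]
  · change v 2 ^ 2 ≤ _
    nlinarith [sq_nonneg (v 1 + v 2), sq_nonneg (v 1), sq_nonneg (v 0), sq_nonneg (v 2)]

theorem mem_vec {n : ℤ} {v : V3} : v ∈ vec n ↔ ip v v = n := by
  unfold vec
  rw [Finset.mem_filter, Fintype.mem_piFinset]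
  constructor
  · exact fun h => h.2
  · intro h
    refine ⟨fun i => ?_, h⟩
    rw [Finset.mem_Icc]
    have h1 := sq_le_ip v i
    rw [h] at h1
    have h2 := Int.le_self_sq (v i)
    have h3 := Int.le_self_sq (-v i)
    constructor <;> nlinarith

/-- Cauchy-Schwarz -/
theorem cs (v w : V3) : ip v w ^ 2 ≤ ip v v * ip w w := by
  have key : ip v v * ip w w - ip v w ^ 2 =
      12 * ((v 1 * w 0 - v 0 * w 1) ^ 2 + (v 1 * w 2 - v 2 * w 1) ^ 2 +
        (v 0 * w 2 - v 2 * w 0) ^ 2 -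
        (v 1 * w 0 - v 0 * w 1) * (v 0 * w 2 - v 2 * w 0)) := by
    unfold ip
    ring
  have : 0 ≤ ip v v * ip w w - ip v w ^ 2 := by
    rw [key]
    nlinarith [sq_nonneg ((v 1 * w 0 - v 0 * w 1) - (v 0 * w 2 - v 2 * w 0)),
      sq_nonneg (v 1 * w 0 - v 0 * w 1), sq_nonneg (v 0 * w 2 - v 2 * w 0),
      sq_nonneg (v 1 * w 2 - v 2 * w 1)]
  linarith

/-- the eight linear forms whose kernels are orthogonal to the isotropic lines modulo seven -/
def LL {R : Type*} [CommRing R] (i : Fin 8) (a b c : R) : R :=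
  ![4 * a + 2 * c + 3 * b, 2 * a + 4 * c + 3 * b, -2 * a + 2 * c + 3 * b, -4 * a - 2 * c + 3 * b,
    -2 * a - 4 * c + 3 * b, 2 * a - 2 * c + 3 * b, 3 * a + c, 3 * a + 2 * c] i

/-- orthogonality to an isotropic line -/
def Ot (i : Fin 8) (v : V3) : Prop := (7 : ℤ) ∣ LL i (v 1) (v 0) (v 2)

instance (i : Fin 8) (v : V3) : Decidable (Ot i v) := by
  unfold Ot; infer_instance

theorem dvd7_iff (x : ℤ) : (7 : ℤ) ∣ x ↔ (x : ZMod 7) = 0 :=
  (ZMod.intCast_zmod_eq_zero_iff_dvd x 7).symm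

/-- the inner product over a ring -/
def ipR {R : Type*} [CommRing R] (a b c x y z : R) : R :=
  4 * (a * x) + 2 * (a * z + c * x) + 4 * (c * z) + 3 * (b * y)

theorem ip_cast (v w : V3) : ((ip v w : ℤ) : ZMod 7) =
    ipR (v 1 : ZMod 7) (v 0 : ZMod 7) (v 2 : ZMod 7) (w 1 : ZMod 7) (w 0 : ZMod 7)
      (w 2 : ZMod 7) := by
  unfold ip ipR
  push_cast
  ring

theorem LL_cast (i : Fin 8) (v : V3) : ((LL i (v 1) (v 0) (v 2) : ℤ) : ZMod 7) =
    LL i (v 1 : ZMod 7) (v 0 : ZMod 7) (v 2 : ZMod 7) := by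
  fin_cases i <;> simp [LL]

/-- representatives of the isotropic lines and the factors between the forms -/
def M (i : Fin 8) : ZMod 7 × ZMod 7 × ZMod 7 :=
  ![(1, 1, 0), (0, 1, 1), (-1, 1, 1), (-1, 1, 0), (0, 1, -1), (1, 1, -1), (2, 0, 1), (4, 0, 1)] i

theorem six_ne : (6 : ZMod 7) ≠ 0 := by decide

theorem M_LL (i : Fin 8) (x y z : ZMod 7) : ipR (M i).1 (M i).2.1 (M i).2.2 x y z = 0 ↔
    LL i x y z = 0 := by
  have : Fact (Nat.Prime 7) := ⟨by norm_num⟩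
  have h7 : (7 : ZMod 7) = 0 := rfl
  have h6 := six_ne
  fin_cases i
  · simp only [M, LL, ipR, Matrix.cons_val_zero, Fin.zero_eta, Fin.isValue]
    ring_nf
  · simp only [M, LL, ipR, Fin.mk_one, Fin.isValue, Matrix.cons_val_one, Matrix.cons_val_zero]
    ring_nf
  · simp only [M, LL, ipR, Fin.reduceFinMk, Matrix.cons_val]
    ring_nf
  · simp only [M, LL, ipR, Fin.reduceFinMk, Matrix.cons_val]
    ring_nf
  · simp only [M, LL, ipR, Fin.reduceFinMk, Matrix.cons_val]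
    ring_nf
  · simp only [M, LL, ipR, Fin.reduceFinMk, Matrix.cons_val]
    ring_nf
  · simp only [M, LL, ipR, Fin.reduceFinMk, Matrix.cons_val]
    have e : 4 * (2 * x) + 2 * (2 * z + 1 * x) + 4 * (1 * z) + 3 * (0 * y) = 3 * x + z := by
      linear_combination (x + z) * h7
    rw [e]
  · simp only [M, LL, ipR, Fin.reduceFinMk, Matrix.cons_val]
    have e : 4 * (4 * x) + 2 * (4 * z + 1 * x) + 4 * (1 * z) + 3 * (0 * y) =
        6 * (3 * x + 2 * z) := by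
      ring
    rw [e, mul_eq_zero]
    simp [h6]

set_option maxRecDepth 1000000 in
theorem iso_fin : ∀ a b c : ZMod 7, (a ≠ 0 ∨ b ≠ 0 ∨ c ≠ 0) → ipR a b c a b c = 0 →
    ∃ i : Fin 8, ∃ t : ZMod 7, t ≠ 0 ∧ a = t * (M i).1 ∧ b = t * (M i).2.1 ∧ c = t * (M i).2.2 := by
  decide

/-- the forms on the isotropic lines -/
theorem M_self : ∀ i j : Fin 8, LL j (M i).1 (M i).2.1 (M i).2.2 = 0 ↔ j = i := by
  decide

theorem LL_smul (j : Fin 8) (t a b c : ZMod 7) : LL j (t * a) (t * b) (t * c) = t * LL j a b c := by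
  fin_cases j <;> simp [LL] <;> ring

theorem ipR_smul (t a b c x y z : ZMod 7) : ipR (t * a) (t * b) (t * c) x y z =
    t * ipR a b c x y z := by
  unfold ipR; ring

theorem ind_fin (a b c x y z : ZMod 7) (h : a ≠ 0 ∨ b ≠ 0 ∨ c ≠ 0) (h0 : ipR a b c a b c = 0) :
    (if ipR a b c x y z = 0 then (1 : ℤ) else 0) =
      ∑ i : Fin 8, (if LL i a b c = 0 then (1 : ℤ) else 0) * (if LL i x y z = 0 then 1 else 0) := by
  have : Fact (Nat.Prime 7) := ⟨by norm_num⟩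
  obtain ⟨i, t, ht, rfl, rfl, rfl⟩ := iso_fin a b c h h0
  rw [Finset.sum_eq_single i]
  · have h1 : LL i (t * (M i).1) (t * (M i).2.1) (t * (M i).2.2) = 0 := by
      rw [LL_smul, (M_self i i).2 rfl, mul_zero]
    rw [if_pos h1, one_mul, ipR_smul]
    simp only [mul_eq_zero, ht, false_or, M_LL]
  · intro j _ hj
    rw [if_neg, zero_mul]
    rw [LL_smul, mul_eq_zero, M_self]
    simp [ht, hj]
  · intro h; exact absurd (Finset.mem_univ i) h

theorem sum_fin0 (a b c : ZMod 7) (h : a ≠ 0 ∨ b ≠ 0 ∨ c ≠ 0) (h0 : ipR a b c a b c = 0) :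
    ∑ i : Fin 8, (if LL i a b c = 0 then (1 : ℤ) else 0) = 1 := by
  have : Fact (Nat.Prime 7) := ⟨by norm_num⟩
  obtain ⟨i, t, ht, rfl, rfl, rfl⟩ := iso_fin a b c h h0
  rw [Finset.sum_eq_single i]
  · rw [if_pos]
    rw [LL_smul, (M_self i i).2 rfl, mul_zero]
  · intro j _ hj
    rw [if_neg]
    rw [LL_smul, mul_eq_zero, M_self]
    simp [ht, hj]
  · intro h; exact absurd (Finset.mem_univ i) h

set_option maxRecDepth 1000000 in
theorem sum_fin2 : ∀ x y z : ZMod 7, (ipR x y z x y z = 3 ∨ ipR x y z x y z = 5 ∨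
    ipR x y z x y z = 6) → ∑ i : Fin 8, (if LL i x y z = 0 then (1 : ℤ) else 0) = 2 := by
  decide

set_option maxRecDepth 1000000 in
theorem sum_fin1 : ∀ x y z : ZMod 7, (ipR x y z x y z = 1 ∨ ipR x y z x y z = 2 ∨
    ipR x y z x y z = 4) → ∀ i : Fin 8, LL i x y z ≠ 0 := by
  decide

theorem ne_zero_of {n : ℕ} (h9 : ¬ 49 ∣ n) {v : V3} (hv : ip v v = n) :
    (v 1 : ZMod 7) ≠ 0 ∨ (v 0 : ZMod 7) ≠ 0 ∨ (v 2 : ZMod 7) ≠ 0 := by
  by_contra hcon
  push Not at hcon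
  obtain ⟨h0, h1, h2⟩ := hcon
  rw [← dvd7_iff] at h0 h1 h2
  obtain ⟨a, ha⟩ := h0
  obtain ⟨b, hb⟩ := h1
  obtain ⟨c, hc⟩ := h2
  apply h9
  have : (49 : ℤ) ∣ (n : ℤ) := by
    rw [← hv]
    unfold ip
    rw [ha, hb, hc]
    exact ⟨4 * (a * a) + 2 * (a * c + c * a) + 4 * (c * c) + 3 * (b * b), by ring⟩
  exact_mod_cast this

theorem ipR_self {n : ℕ} {v : V3} (hv : ip v v = n) :
    ipR (v 1 : ZMod 7) (v 0 : ZMod 7) (v 2 : ZMod 7) (v 1 : ZMod 7) (v 0 : ZMod 7)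
      (v 2 : ZMod 7) = (n : ZMod 7) := by
  rw [← ip_cast, hv]
  push_cast
  rfl

theorem cast_mod {n r : ℕ} (h : n % 7 = r) : (n : ZMod 7) = (r : ZMod 7) := by
  rw [← h]
  exact (ZMod.natCast_mod n 7).symm

theorem ipR_self_zero {n : ℕ} (h7 : 7 ∣ n) {v : V3} (hv : ip v v = n) :
    ipR (v 1 : ZMod 7) (v 0 : ZMod 7) (v 2 : ZMod 7) (v 1 : ZMod 7) (v 0 : ZMod 7)
      (v 2 : ZMod 7) = 0 := by
  rw [ipR_self hv, cast_mod (r := 0) (by omega)]
  rfl

theorem ipR_self_Sp7 {n : ℕ} (h7 : Sp7 n) {v : V3} (hv : ip v v = n) :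
    ipR (v 1 : ZMod 7) (v 0 : ZMod 7) (v 2 : ZMod 7) (v 1 : ZMod 7) (v 0 : ZMod 7)
      (v 2 : ZMod 7) = 3 ∨
    ipR (v 1 : ZMod 7) (v 0 : ZMod 7) (v 2 : ZMod 7) (v 1 : ZMod 7) (v 0 : ZMod 7)
      (v 2 : ZMod 7) = 5 ∨
    ipR (v 1 : ZMod 7) (v 0 : ZMod 7) (v 2 : ZMod 7) (v 1 : ZMod 7) (v 0 : ZMod 7)
      (v 2 : ZMod 7) = 6 := by
  rw [ipR_self hv]
  rcases h7 with h | h | h
  · left; rw [cast_mod h]; rfl
  · right; left; rw [cast_mod h]; rfl
  · right; right; rw [cast_mod h]; rfl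

theorem ipR_self_N7 {n : ℕ} (h7 : n % 7 = 1 ∨ n % 7 = 2 ∨ n % 7 = 4) {v : V3} (hv : ip v v = n) :
    ipR (v 1 : ZMod 7) (v 0 : ZMod 7) (v 2 : ZMod 7) (v 1 : ZMod 7) (v 0 : ZMod 7)
      (v 2 : ZMod 7) = 1 ∨
    ipR (v 1 : ZMod 7) (v 0 : ZMod 7) (v 2 : ZMod 7) (v 1 : ZMod 7) (v 0 : ZMod 7)
      (v 2 : ZMod 7) = 2 ∨
    ipR (v 1 : ZMod 7) (v 0 : ZMod 7) (v 2 : ZMod 7) (v 1 : ZMod 7) (v 0 : ZMod 7)
      (v 2 : ZMod 7) = 4 := by
  rw [ipR_self hv]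
  rcases h7 with h | h | h
  · left; rw [cast_mod h]; rfl
  · right; left; rw [cast_mod h]; rfl
  · right; right; rw [cast_mod h]; rfl

/-- the number of vectors orthogonal to a line -/
noncomputable def NN (i : Fin 8) (n : ℤ) : ℤ := ((vec n).filter fun v => Ot i v).card

theorem ind_ip {v w : V3} {n1 : ℕ} (h1 : 7 ∣ n1) (h1' : ¬ 49 ∣ n1) (hv : ip v v = n1) :
    (if (7 : ℤ) ∣ ip v w then (1 : ℤ) else 0) =
      ∑ i : Fin 8, (if Ot i v then (1 : ℤ) else 0) * (if Ot i w then 1 else 0) := by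
  have key := ind_fin (v 1) (v 0) (v 2) (w 1) (w 0) (w 2) (ne_zero_of h1' hv)
    (ipR_self_zero h1 hv)
  simp only [dvd7_iff, Ot, ip_cast, LL_cast]
  exact key

theorem card_eq_sum {α : Type*} (s : Finset α) (p : α → Prop) [DecidablePred p] :
    ((s.filter p).card : ℤ) = ∑ x ∈ s, if p x then (1 : ℤ) else 0 := by
  rw [Finset.card_filter]
  push_cast
  rfl

theorem cp0_eq {n1 : ℕ} (n2 : ℕ) (h1 : 7 ∣ n1) (h1' : ¬ 49 ∣ n1) :
    (cp0 n1 n2 : ℤ) = ∑ i : Fin 8, NN i n1 * NN i n2 := by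
  unfold cp0
  rw [card_eq_sum, Finset.sum_product]
  have : ∀ v ∈ vec (n1 : ℤ), ∑ w ∈ vec (n2 : ℤ),
      (if (7 : ℤ) ∣ ip v w then (1 : ℤ) else 0) =
      ∑ w ∈ vec (n2 : ℤ), ∑ i : Fin 8, (if Ot i v then (1 : ℤ) else 0) *
        (if Ot i w then 1 else 0) := by
    intro v hv
    refine Finset.sum_congr rfl fun w _ => ?_
    exact ind_ip h1 h1' (mem_vec.1 hv)
  rw [Finset.sum_congr rfl this]
  have : ∀ v ∈ vec (n1 : ℤ), ∑ w ∈ vec (n2 : ℤ), ∑ i : Fin 8, (if Ot i v then (1 : ℤ) else 0) *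
        (if Ot i w then 1 else 0) = ∑ i : Fin 8, (if Ot i v then (1 : ℤ) else 0) * NN i n2 := by
    intro v _
    rw [Finset.sum_comm]
    refine Finset.sum_congr rfl fun i _ => ?_
    rw [← Finset.mul_sum, NN, card_eq_sum]
  rw [Finset.sum_congr rfl this, Finset.sum_comm]
  refine Finset.sum_congr rfl fun i _ => ?_
  rw [← Finset.sum_mul]
  congr 1
  rw [NN, card_eq_sum]

/-- the rotation of order six -/
def sg (v : V3) : V3 := ![v 0, -v 2, v 1 + v 2]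

def sg' (v : V3) : V3 := ![v 0, v 1 + v 2, -v 1]

/-- a half turn -/
def ta (v : V3) : V3 := ![-v 0, v 1 + v 2, -v 2]

theorem sg_sg' (v : V3) : sg (sg' v) = v := by
  ext i
  fin_cases i <;> simp [sg, sg']

theorem sg'_sg (v : V3) : sg' (sg v) = v := by
  ext i
  fin_cases i <;> simp [sg, sg']

theorem ta_ta (v : V3) : ta (ta v) = v := by
  ext i
  fin_cases i <;> simp [ta]

theorem ip_sg2 (v w : V3) : ip (sg v) (sg w) = ip v w := by
  simp only [ip, sg, Matrix.cons_val_zero, Matrix.cons_val_one, Matrix.cons_val]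
  ring

theorem ip_sg (v : V3) : ip (sg v) (sg v) = ip v v := ip_sg2 v v

theorem ip_sg' (v : V3) : ip (sg' v) (sg' v) = ip v v := by
  rw [← ip_sg (sg' v), sg_sg']

theorem ip_ta2 (v w : V3) : ip (ta v) (ta w) = ip v w := by
  simp only [ip, ta, Matrix.cons_val_zero, Matrix.cons_val_one, Matrix.cons_val]
  ring

theorem NN_rot {i j : Fin 8} (h : ∀ v : V3, LL i (sg v 1) (sg v 0) (sg v 2) =
    LL j (v 1) (v 0) (v 2)) (n : ℤ) : NN j n = NN i n := by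
  unfold NN
  congr 1
  refine Finset.card_nbij' sg sg' ?_ ?_ ?_ ?_
  · intro v hv
    rw [Finset.mem_coe, Finset.mem_filter, mem_vec] at hv ⊢
    refine ⟨by rw [ip_sg]; exact hv.1, ?_⟩
    have := hv.2
    unfold Ot at this ⊢
    rw [h]
    exact this
  · intro v hv
    rw [Finset.mem_coe, Finset.mem_filter, mem_vec] at hv ⊢
    refine ⟨by rw [ip_sg']; exact hv.1, ?_⟩
    have := hv.2
    unfold Ot at this ⊢
    rw [← h (sg' v), sg_sg']
    exact this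
  · intro v _
    exact sg'_sg v
  · intro v _
    exact sg_sg' v

theorem NN1 (n : ℤ) : NN 1 n = NN 0 n := by
  refine (NN_rot (fun v => ?_) n).symm
  simp only [LL, sg, Matrix.cons_val_zero, Matrix.cons_val_one, Matrix.cons_val]
  ring

theorem NN2 (n : ℤ) : NN 2 n = NN 0 n := by
  rw [← NN1]
  refine (NN_rot (fun v => ?_) n).symm
  simp only [LL, sg, Matrix.cons_val_zero, Matrix.cons_val_one, Matrix.cons_val]
  ring

theorem NN3 (n : ℤ) : NN 3 n = NN 0 n := by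
  rw [← NN2]
  refine (NN_rot (fun v => ?_) n).symm
  simp only [LL, sg, Matrix.cons_val_zero, Matrix.cons_val_one, Matrix.cons_val]
  ring

theorem NN4 (n : ℤ) : NN 4 n = NN 0 n := by
  rw [← NN3]
  refine (NN_rot (fun v => ?_) n).symm
  simp only [LL, sg, Matrix.cons_val_zero, Matrix.cons_val_one, Matrix.cons_val]
  ring

theorem NN5 (n : ℤ) : NN 5 n = NN 0 n := by
  rw [← NN4]
  refine (NN_rot (fun v => ?_) n).symm
  simp only [LL, sg, Matrix.cons_val_zero, Matrix.cons_val_one, Matrix.cons_val]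
  ring

theorem NN6 (n : ℤ) : NN 6 n = rr0 n := rfl

theorem NN7 (n : ℤ) : NN 7 n = rr0 n := by
  rw [← NN6]
  unfold NN
  congr 1
  have h : ∀ v : V3, Ot 6 (ta v) ↔ Ot 7 v := by
    intro v
    unfold Ot
    simp only [LL, ta, Matrix.cons_val_zero, Matrix.cons_val_one, Matrix.cons_val]
    rw [show 3 * (v 1 + v 2) + -v 2 = 3 * v 1 + 2 * v 2 by ring]
  refine Finset.card_nbij' ta ta ?_ ?_ ?_ ?_
  · intro v hv
    rw [Finset.mem_coe, Finset.mem_filter, mem_vec] at hv ⊢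
    exact ⟨by rw [ip_ta2]; exact hv.1, (h v).2 hv.2⟩
  · intro v hv
    rw [Finset.mem_coe, Finset.mem_filter, mem_vec] at hv ⊢
    refine ⟨by rw [ip_ta2]; exact hv.1, (h (ta v)).1 ?_⟩
    rw [ta_ta]
    exact hv.2
  · intro v _
    exact ta_ta v
  · intro v _
    exact ta_ta v

theorem sum_NN (n : ℤ) : ∑ i : Fin 8, NN i n = 2 * rr0 n + 6 * NN 0 n := by
  rw [Fin.sum_univ_eight, NN1, NN2, NN3, NN4, NN5, NN6, NN7]
  ring

theorem sum_NN2 (n1 n2 : ℤ) : ∑ i : Fin 8, NN i n1 * NN i n2 =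
    2 * (rr0 n1 * rr0 n2) + 6 * (NN 0 n1 * NN 0 n2) := by
  rw [Fin.sum_univ_eight, NN1, NN2, NN3, NN4, NN5, NN6, NN7, NN1, NN2, NN3, NN4, NN5, NN6, NN7]
  ring

theorem sum_ind {n : ℤ} {k : ℤ} (h : ∀ v : V3, ip v v = n →
    ∑ i : Fin 8, (if Ot i v then (1 : ℤ) else 0) = k) : 2 * rr0 n + 6 * NN 0 n = k * rr n := by
  rw [← sum_NN]
  unfold NN rr
  simp only [card_eq_sum]
  rw [Finset.sum_comm, Finset.sum_congr rfl fun v hv => h v (mem_vec.1 hv), Finset.sum_const,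
    nsmul_eq_mul, mul_comm]

theorem NN_77 {n : ℕ} (h7 : 7 ∣ n) (h49 : ¬ 49 ∣ n) : 2 * rr0 n + 6 * NN 0 n = rr n := by
  have := sum_ind (n := n) (k := 1) (fun v hv => by
    have := sum_fin0 (v 1) (v 0) (v 2) (ne_zero_of h49 hv) (ipR_self_zero h7 hv)
    simp only [dvd7_iff, Ot, LL_cast]
    exact this)
  rw [one_mul] at this
  exact this

theorem NN_Sp7 {n : ℕ} (h7 : Sp7 n) : 2 * rr0 n + 6 * NN 0 n = 2 * rr n := by
  exact sum_ind (n := n) (k := 2) (fun v hv => by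
    have := sum_fin2 (v 1) (v 0) (v 2) (ipR_self_Sp7 h7 hv)
    simp only [dvd7_iff, Ot, LL_cast]
    exact this)

theorem Sp7_not {n : ℕ} (h : Sp7 n) : ¬ 7 ∣ n := by
  unfold Sp7 at h; omega

theorem s_REL77 : S_REL77 := by
  intro n1 n2 h1 h1' h2 h2'
  rw [cp0_eq n2 h1 h1', sum_NN2]
  have e1 := NN_77 h1 h1'
  have e2 := NN_77 h2 h2'
  unfold cc
  rw [if_pos (by omega), if_pos (by omega), ← e1, ← e2]
  ring

theorem s_REL75 : S_REL75 := by
  intro n1 n2 h1 h1' h2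
  rw [cp0_eq n2 h1 h1', sum_NN2]
  have e1 := NN_77 h1 h1'
  have e2 := NN_Sp7 h2
  have := Sp7_not h2
  unfold cc
  rw [if_pos (by omega), if_neg (by omega)]
  have e3 : (rr n2 : ℤ) = rr0 n2 + 3 * NN 0 n2 := by linarith
  rw [e3, ← e1]
  ring

theorem s_REL71 : S_REL71 := by
  intro n1 n2 h1 h1' h2
  have h : (cp0 n1 n2 : ℤ) = 0 := by
    rw [cp0_eq n2 h1 h1']
    refine Finset.sum_eq_zero fun i _ => ?_
    have : NN i n2 = 0 := by
      unfold NN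
      rw [Nat.cast_eq_zero, Finset.card_eq_zero, Finset.filter_eq_empty_iff]
      intro w hw h
      unfold Ot at h
      rw [dvd7_iff, LL_cast] at h
      exact sum_fin1 _ _ _ (ipR_self_N7 h2 (mem_vec.1 hw)) i h
    rw [this, mul_zero]
  exact_mod_cast h

end Pool.Agent.N218.P21
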