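import Pool.Agent.N218.P21.Loc
import Pool.Agent.N218.P21.Rel
import Pool.Agent.N218.P15.Five

/-!
# P21: the divisibilities
-/

set_option autoImplicit false

namespace Pool.Agent.N218.P21

open Finset
open Pool.Agent.N969.P15 (V3 tw Ev Qc Qe)
open Pool.Agent.N877.P21
open Pool.Agent.Z700 (hh fac)
open Pool.Agent.N218.P15 (pr Dat dat_of sum_div_filter sum_symm' card_cop quo res4a val_mul pr_dvd
  quo_eq)
open Pool.Agent.N871.P15 (sum_four odd_dvd_cancel mod_div card_mul)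

/-- PC3 in the form without the symbol at `3` -/
def S_PC3' : Prop := ∀ (n1 n2 : ℕ) (b : ℤ) (D : ℕ), Squarefree n1 → n1 % 4 = 3 → 3 ∣ n1 →
  0 < D → (D : ℤ) = n1 * n2 - b ^ 2 → (cp n1 b n2 : ℤ) =
    if 3 ∣ D then 12 * (tw n1 D * ∏ l ∈ (D.primeFactors.erase 2).erase 3, fac n1 D l) else 0

/-- the pair count for any `n1` -/
theorem pc_any (hPC : S_PC) (hPC3 : S_PC3') {n1 n2 D : ℕ} {b : ℤ} (hs : Squarefree n1)
    (h4 : n1 % 4 = 3) (hD : 0 < D)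
    (hDD : (D : ℤ) = n1 * n2 - b ^ 2) (h3 : 3 ∣ n1 → 3 ∣ D → D.factorization 3 = 1) :
    (cp n1 b n2 : ℤ) = 12 * loc n1 D := by
  by_cases h : 3 ∣ n1
  · rw [hPC3 n1 n2 b D hs h4 h hD hDD]
    unfold loc
    by_cases h3D : 3 ∣ D
    · rw [if_pos h3D, if_pos (by rw [h3 h h3D]; decide)]
    · rw [if_neg h3D, Nat.factorization_eq_zero_of_not_dvd h3D]
      simp
  · exact hPC n1 n2 b D hs h4 h hD hDD

theorem x_mod4 {t p : ℕ} (ht : T21 t) (hp : p % 4 = rt t) : (t * p) % 4 = 3 := by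
  rw [Nat.mul_mod, hp]
  rcases ht with rfl | rfl | rfl | rfl <;> rfl

/-- the number of pairs with inner product divisible by seven as a sum -/
theorem cp0_sum {n1 n2 B : ℕ} (h : n1 * n2 < 49 * B ^ 2) :
    (cp0 n1 n2 : ℤ) = ∑ b ∈ Ioo (-(B : ℤ)) B, (cp n1 (7 * b) n2 : ℤ) := by
  unfold cp0
  rw [Finset.card_eq_sum_card_fiberwise (f := fun q : V3 × V3 => ip q.1 q.2 / 7)
    (t := Ioo (-(B : ℤ)) B)]
  · push_cast
    refine Finset.sum_congr rfl fun b _ => ?_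
    unfold cp
    rw [Finset.filter_filter]
    congr 2
    refine Finset.filter_congr fun q _ => ?_
    constructor
    · rintro ⟨h1, h2⟩; omega
    · intro h1; omega
  · rintro ⟨v, w⟩ hq
    rw [Finset.mem_coe, Finset.mem_filter, Finset.mem_product, mem_vec, mem_vec] at hq
    obtain ⟨⟨h1, h2⟩, c, h3⟩ := hq
    rw [Finset.mem_coe, Finset.mem_Ioo]
    have h4 := cs v w
    dsimp only at h1 h2 h3 ⊢
    rw [h1, h2, h3] at h4
    rw [h3, Int.mul_ediv_cancel_left _ (by norm_num)]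
    have h5 : ((n1 : ℤ) * n2) < 49 * (B : ℤ) ^ 2 := by exact_mod_cast h
    have h6 : c ^ 2 < (B : ℤ) ^ 2 := by nlinarith
    exact abs_lt.1 (abs_lt_of_sq_lt_sq h6 (by positivity))

theorem ip_comm (v w : V3) : ip v w = ip w v := by
  unfold ip; ring

theorem cp0_comm (n1 n2 : ℤ) : cp0 n1 n2 = cp0 n2 n1 := by
  unfold cp0
  refine Finset.card_nbij' (fun q => (q.2, q.1)) (fun q => (q.2, q.1)) ?_ ?_ ?_ ?_
  · rintro ⟨v, w⟩ hq
    simp only [Finset.coe_filter, Set.mem_ofPred_eq, Finset.mem_product] at hq ⊢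
    exact ⟨⟨hq.1.2, hq.1.1⟩, by rw [ip_comm]; exact hq.2⟩
  · rintro ⟨v, w⟩ hq
    simp only [Finset.coe_filter, Set.mem_ofPred_eq, Finset.mem_product] at hq ⊢
    exact ⟨⟨hq.1.2, hq.1.1⟩, by rw [ip_comm]; exact hq.2⟩
  · intro q _; rfl
  · intro q _; rfl

/-- the bound for the inner products -/
def BB (N : ℕ) : ℕ := Nat.sqrt (N / 49) + 1

/-- the discriminant -/
def DD (N : ℕ) (b : ℤ) : ℕ := ((N : ℤ) - (7 * b) ^ 2).toNat

theorem BB_pos (N : ℕ) : 0 < BB N := by unfold BB; omega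

theorem BB_lt (N : ℕ) : N < 49 * BB N ^ 2 := by
  have := Nat.lt_succ_sqrt' (N / 49)
  unfold BB
  rw [Nat.succ_eq_add_one] at this
  omega

theorem DD_pos {N : ℕ} (hsq : ∀ b : ℤ, (7 * b) ^ 2 ≠ N) {b : ℤ} (hb : b ∈ Ioo (-(BB N : ℤ)) (BB N)) :
    0 < (N : ℤ) - (7 * b) ^ 2 := by
  rw [Finset.mem_Ioo] at hb
  unfold BB at hb
  have h4 : |b| ≤ Nat.sqrt (N / 49) := by
    rw [abs_le]
    constructor <;> omega
  have h5 : b ^ 2 ≤ ((Nat.sqrt (N / 49) ^ 2 : ℕ) : ℤ) := by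
    rw [← sq_abs]
    push_cast
    exact pow_le_pow_left₀ (abs_nonneg _) h4 2
  have h6 : ((Nat.sqrt (N / 49) ^ 2 : ℕ) : ℤ) ≤ ((N / 49 : ℕ) : ℤ) := by
    exact_mod_cast Nat.sqrt_le' (N / 49)
  have h7 : (7 * b) ^ 2 ≤ N := by
    have : (7 * b) ^ 2 = 49 * b ^ 2 := by ring
    rw [this]
    omega
  have h9 : (7 * b) ^ 2 < N := lt_of_le_of_ne h7 (hsq b)
  linarith

theorem DD_eq {N : ℕ} (hsq : ∀ b : ℤ, (7 * b) ^ 2 ≠ N) {b : ℤ}
    (hb : b ∈ Ioo (-(BB N : ℤ)) (BB N)) :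
    0 < DD N b ∧ (DD N b : ℤ) = (N : ℤ) - (7 * b) ^ 2 := by
  have hpos := DD_pos hsq hb
  have h : (DD N b : ℤ) = (N : ℤ) - (7 * b) ^ 2 := Int.toNat_of_nonneg hpos.le
  exact ⟨by omega, h⟩

theorem DD_zero (N : ℕ) : DD N 0 = N := by unfold DD; simp

theorem DD_neg (N : ℕ) (b : ℤ) : DD N (-b) = DD N b := by
  unfold DD
  have : (7 * -b) ^ 2 = (7 * b) ^ 2 := by ring
  rw [this]

/-- the sum of the local densities of a family -/
def gS (P : Finset ℕ) (t N : ℕ) (b : ℤ) : ℤ :=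
  ∑ S ∈ P.powerset.filter (fun S => pr S % 4 = rt t), loc (t * pr S) (DD N b)

theorem zero_mem (N : ℕ) : (0 : ℤ) ∈ Ioo (-(BB N : ℤ)) (BB N) := by
  have := BB_pos N
  rw [Finset.mem_Ioo]; omega

/-- a family of pairs -/
theorem totF (hPC : S_PC) (hPC3 : S_PC3') {P : Finset ℕ} {N t : ℕ} (ht : T21 t)
    (hN0 : N ≠ 0) (hsq : ∀ b : ℤ, (7 * b) ^ 2 ≠ N)
    (hv3 : (t = 3 ∨ t = 21) → N.factorization 3 = 1) (hP3 : 3 ∉ P) (hP : ∀ p ∈ P, p.Prime)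
    (hd : ∀ S ⊆ P, Squarefree (t * pr S) ∧ t * pr S ∣ N) :
    ∑ S ∈ P.powerset.filter (fun S => pr S % 4 = rt t),
        (cp0 (t * pr S : ℕ) (N / (t * pr S) : ℕ) : ℤ) =
      12 * (2 * ∑ b ∈ Ioo (0 : ℤ) (BB N), gS P t N b + gS P t N 0) := by
  have key : ∀ S ∈ P.powerset.filter (fun S => pr S % 4 = rt t),
      (cp0 (t * pr S : ℕ) (N / (t * pr S) : ℕ) : ℤ) =
        ∑ b ∈ Ioo (-(BB N : ℤ)) (BB N), 12 * loc (t * pr S) (DD N b) := by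
    intro S hS
    obtain ⟨a1, a2⟩ := Finset.mem_filter.1 hS
    obtain ⟨b1, b2⟩ := hd S (Finset.mem_powerset.1 a1)
    have e2 : t * pr S * (N / (t * pr S)) = N := Nat.mul_div_cancel' b2
    rw [cp0_sum (B := BB N) (by rw [e2]; exact BB_lt N)]
    refine Finset.sum_congr rfl fun b hb' => ?_
    obtain ⟨hpos, hDD⟩ := DD_eq hsq hb'
    refine pc_any hPC hPC3 b1 (x_mod4 ht a2) hpos ?_ ?_
    · rw [hDD]
      have : ((t * pr S : ℕ) : ℤ) * ((N / (t * pr S) : ℕ) : ℤ) = N := by exact_mod_cast e2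
      rw [this]
    · intro h3 h3D
      have ht3 : t = 3 ∨ t = 21 := by
        by_contra hcon
        have h3t : ¬ 3 ∣ t := by
          rcases ht with rfl | rfl | rfl | rfl
          · norm_num
          · exact absurd (Or.inl rfl) hcon
          · norm_num
          · exact absurd (Or.inr rfl) hcon
        rcases (Nat.Prime.dvd_mul Nat.prime_three).1 h3 with h | h
        · exact h3t h
        · obtain ⟨p, hp, h⟩ := (Prime.dvd_finsetProd_iff Nat.prime_three.prime _).1 h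
          have hpP := Finset.mem_powerset.1 a1 hp
          have := (Nat.prime_dvd_prime_iff_eq Nat.prime_three (hP p hpP)).1 h
          exact hP3 (this ▸ hpP)
      exact Pool.Agent.N218.P15.val1 Nat.prime_three hN0 (hv3 ht3) hpos.ne' hDD h3D
  rw [Finset.sum_congr rfl key, Finset.sum_comm]
  have e3 : ∀ b ∈ Ioo (-(BB N : ℤ)) (BB N), ∑ S ∈ P.powerset.filter (fun S => pr S % 4 = rt t),
      12 * loc (t * pr S) (DD N b) = 12 * gS P t N b := by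
    intro b _
    unfold gS
    rw [Finset.mul_sum]
  rw [Finset.sum_congr rfl e3, ← Finset.mul_sum, sum_symm' (BB_pos N) (gS P t N)]
  intro b
  unfold gS
  rw [DD_neg]

/-- the facts on the discriminants -/
theorem DD_facts {P : Finset ℕ} (hP : PQ P) {N : ℕ} (hN0 : N ≠ 0) (h7N : 7 ∣ N)
    (hsq : ∀ b : ℤ, (7 * b) ^ 2 ≠ N)
    (hv : ∀ l ∈ P, N.factorization l = 1) {b : ℤ} (hb : b ∈ Ioo (-(BB N : ℤ)) (BB N)) :
    0 < DD N b ∧ 7 ∣ DD N b ∧ (∀ l ∈ P, l ∣ DD N b → (DD N b).factorization l = 1) ∧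
      (¬ 49 ∣ N → (DD N b).factorization 7 = 1) := by
  obtain ⟨hpos, hDD⟩ := DD_eq hsq hb
  have hsq9 : (7 * b) ^ 2 = 49 * b ^ 2 := by ring
  have h7D : 7 ∣ DD N b := by
    rw [hsq9] at hDD
    omega
  refine ⟨hpos, h7D, fun l hl h => Pool.Agent.N218.P15.val1 (hP l hl).1 hN0 (hv l hl) hpos.ne' hDD h,
    fun h49 => ?_⟩
  have p7 : Nat.Prime 7 := by norm_num
  have h1 : 1 ≤ (DD N b).factorization 7 := (p7.dvd_iff_one_le_factorization hpos.ne').1 h7D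
  have h2 : ¬ 2 ≤ (DD N b).factorization 7 := by
    intro h7
    have h8 : 7 ^ 2 ∣ DD N b := (Nat.Prime.pow_dvd_iff_le_factorization p7 hpos.ne').2 h7
    rw [hsq9] at hDD
    omega
  omega

theorem pos_mem {N : ℕ} {b : ℤ} (hb : b ∈ Ioo (0 : ℤ) (BB N)) : b ∈ Ioo (-(BB N : ℤ)) (BB N) := by
  rw [Finset.mem_Ioo] at hb ⊢
  omega

/-- the divisibility for one family -/
theorem tot1 (hPC : S_PC) (hPC3 : S_PC3') {P : Finset ℕ} (hP : PQ P) {N t : ℕ} (ht : T21 t)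
    (hN0 : N ≠ 0) (h7N : 7 ∣ N) (hsq : ∀ b : ℤ, (7 * b) ^ 2 ≠ N)
    (hv : ∀ l ∈ P, N.factorization l = 1) (hv3 : (t = 3 ∨ t = 21) → N.factorization 3 = 1)
    (h49 : (t = 7 ∨ t = 21) ∨ ¬ 49 ∣ N)
    (hd : ∀ S ⊆ P, Squarefree (t * pr S) ∧ t * pr S ∣ N) :
    (2 : ℤ) ^ (P.card + 2) ∣ ∑ S ∈ P.powerset.filter (fun S => pr S % 4 = rt t),
        (cp0 (t * pr S : ℕ) (N / (t * pr S) : ℕ) : ℤ) := by
  rw [totF hPC hPC3 ht hN0 hsq hv3 (fun h => (hP 3 h).2.2.1 rfl) (fun p hp => (hP p hp).1) hd]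
  have h1 : (2 : ℤ) ^ P.card ∣ 2 * ∑ b ∈ Ioo (0 : ℤ) (BB N), gS P t N b := by
    rw [Finset.mul_sum]
    refine Finset.dvd_sum fun b hb => ?_
    obtain ⟨f1, f2, f3, f4⟩ := DD_facts hP hN0 h7N hsq hv (pos_mem hb)
    exact famS hP ht f1 f2 f3 (h49.imp id f4)
  have h0 : (2 : ℤ) ^ P.card ∣ gS P t N 0 := by
    obtain ⟨f1, f2, f3, f4⟩ := DD_facts hP hN0 h7N hsq hv (zero_mem N)
    unfold gS
    rw [DD_zero] at f1 f2 f3 f4 ⊢
    refine Finset.dvd_sum fun S hS => ?_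
    obtain ⟨a1, a2⟩ := Finset.mem_filter.1 hS
    exact (pow_dvd_pow 2 (Nat.le_succ _)).trans
      (loc0 hP (Finset.mem_powerset.1 a1) ht f1 f2 hv (h49.imp id f4))
  obtain ⟨c, hc⟩ := dvd_add h1 h0
  rw [hc, pow_add]
  exact ⟨3 * c, by ring⟩

/-- the divisibility for two families -/
theorem tot2 (hPC : S_PC) (hPC3 : S_PC3') {P : Finset ℕ} (hP : PQ P) {N t t' : ℕ} (ht : T21 t)
    (ht' : T21 t') (hN0 : N ≠ 0) (h7N : 7 ∣ N) (hsq : ∀ b : ℤ, (7 * b) ^ 2 ≠ N)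
    (hv : ∀ l ∈ P, N.factorization l = 1) (hv3 : (t = 3 ∨ t = 21) → N.factorization 3 = 1)
    (hv3' : (t' = 3 ∨ t' = 21) → N.factorization 3 = 1)
    (h49 : (t = 7 ∨ t = 21) ∨ ¬ 49 ∣ N) (h49' : (t' = 7 ∨ t' = 21) ∨ ¬ 49 ∣ N)
    (hd : ∀ S ⊆ P, Squarefree (t * pr S) ∧ t * pr S ∣ N)
    (hd' : ∀ S ⊆ P, Squarefree (t' * pr S) ∧ t' * pr S ∣ N) :
    (2 : ℤ) ^ (P.card + 3) ∣ ∑ S ∈ P.powerset.filter (fun S => pr S % 4 = rt t),
        (cp0 (t * pr S : ℕ) (N / (t * pr S) : ℕ) : ℤ) +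
      ∑ S ∈ P.powerset.filter (fun S => pr S % 4 = rt t'),
        (cp0 (t' * pr S : ℕ) (N / (t' * pr S) : ℕ) : ℤ) := by
  rw [totF hPC hPC3 ht hN0 hsq hv3 (fun h => (hP 3 h).2.2.1 rfl) (fun p hp => (hP p hp).1) hd,
    totF hPC hPC3 ht' hN0 hsq hv3' (fun h => (hP 3 h).2.2.1 rfl) (fun p hp => (hP p hp).1) hd']
  have h1 : (2 : ℤ) ^ P.card ∣ ∑ b ∈ Ioo (0 : ℤ) (BB N), (gS P t N b + gS P t' N b) := by
    refine Finset.dvd_sum fun b hb => ?_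
    obtain ⟨f1, f2, f3, f4⟩ := DD_facts hP hN0 h7N hsq hv (pos_mem hb)
    exact famTT hP ht ht' f1 f2 f3 (h49.imp id f4) (h49'.imp id f4)
  rw [Finset.sum_add_distrib] at h1
  have h0 : ∀ u, T21 u → ((u = 7 ∨ u = 21) ∨ ¬ 49 ∣ N) → (2 : ℤ) ^ (P.card + 1) ∣ gS P u N 0 := by
    intro u hu hu49
    obtain ⟨f1, f2, f3, f4⟩ := DD_facts hP hN0 h7N hsq hv (zero_mem N)
    unfold gS
    rw [DD_zero] at f1 f2 f3 f4 ⊢
    refine Finset.dvd_sum fun S hS => ?_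
    obtain ⟨a1, a2⟩ := Finset.mem_filter.1 hS
    exact loc0 hP (Finset.mem_powerset.1 a1) hu f1 f2 hv (hu49.imp id f4)
  obtain ⟨c, hc⟩ := h1
  obtain ⟨d, hd0⟩ := h0 t ht h49
  obtain ⟨d', hd0'⟩ := h0 t' ht' h49'
  have e : 12 * (2 * ∑ b ∈ Ioo (0 : ℤ) (BB N), gS P t N b + gS P t N 0) +
      12 * (2 * ∑ b ∈ Ioo (0 : ℤ) (BB N), gS P t' N b + gS P t' N 0) =
      24 * (∑ b ∈ Ioo (0 : ℤ) (BB N), gS P t N b + ∑ b ∈ Ioo (0 : ℤ) (BB N), gS P t' N b) +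
      12 * (gS P t N 0 + gS P t' N 0) := by ring
  rw [e, hc, hd0, hd0', pow_add, pow_add]
  exact ⟨3 * c + 3 * d + 3 * d', by ring⟩

end Pool.Agent.N218.P21
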